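import Pool.Agent.H.MP_91129c_co.Indep

/-!
Conflict-free colouring of `n` discs with `O(log n)` colours.
-/

namespace Pool.Agent.H.MP_91129c_co

section CFn

variable {ι : Type*} [LinearOrder ι] (cx cy r : ι → ℝ)

/-- power of the point `(px, py)` with respect to disc `i` -/
def pw (i : ι) (px py : ℝ) : ℝ := (px - cx i) ^ 2 + (py - cy i) ^ 2 - r i ^ 2

/-- lexicographic comparison of powers -/
def low (i l : ι) (px py : ℝ) : Prop :=
  pw cx cy r i px py < pw cx cy r l px py ∨ (pw cx cy r i px py = pw cx cy r l px py ∧ i < l)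

/-- `i` and `j` are the two lowest discs of `F` at some point -/
def dadj (F : Finset ι) (i j : ι) : Prop :=
  i ≠ j ∧ i ∈ F ∧ j ∈ F ∧ ∃ px py : ℝ, ∀ l ∈ F, l ≠ i → l ≠ j →
    low cx cy r i l px py ∧ low cx cy r j l px py

theorem dadj_symm (F : Finset ι) (i j : ι) (h : dadj cx cy r F i j) : dadj cx cy r F j i := by
  obtain ⟨h1, h2, h3, px, py, h4⟩ := h
  exact ⟨h1.symm, h3, h2, px, py, fun l hl hlj hli => (h4 l hl hli hlj).symm⟩

theorem dadj_irrefl (F : Finset ι) (i : ι) : ¬ dadj cx cy r F i i := fun h => h.1 rfl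

theorem low_sep {i k : ι} {px py qx qy : ℝ} (h1 : low cx cy r i k px py)
    (h2 : low cx cy r k i qx qy) :
    (2 * (qx - px)) * cx i + (2 * (qy - py)) * cy i <
      (2 * (qx - px)) * cx k + (2 * (qy - py)) * cy k := by
  have key : pw cx cy r i px py - pw cx cy r i qx qy < pw cx cy r k px py - pw cx cy r k qx qy := by
    rcases h1 with h1 | ⟨h1, h1'⟩
    · rcases h2 with h2 | ⟨h2, _⟩ <;> linarith
    · rcases h2 with h2 | ⟨h2, h2'⟩
      · linarith
      · exact absurd h1' (not_lt.mpr h2'.le)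
  unfold pw at key
  nlinarith

theorem dadj_sep (F : Finset ι) : Wedge.Sep F cx cy (dadj cx cy r F) := by
  intro a ha b hb c hc d hd hab hcd hac had hbc hbd
  obtain ⟨_, _, _, px, py, hp⟩ := hab
  obtain ⟨_, _, _, qx, qy, hq⟩ := hcd
  refine ⟨2 * (qx - px), 2 * (qy - py), ?_, ?_, ?_, ?_⟩
  · exact low_sep cx cy r (hp c hc hac.symm hbc.symm).1 (hq a ha hac had).1
  · exact low_sep cx cy r (hp d hd had.symm hbd.symm).1 (hq a ha hac had).2
  · exact low_sep cx cy r (hp c hc hac.symm hbc.symm).2 (hq b hb hbc hbd).1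
  · exact low_sep cx cy r (hp d hd had.symm hbd.symm).2 (hq b hb hbc hbd).2

theorem exists_lowest (F : Finset ι) (hF : F.Nonempty) (px py : ℝ) :
    ∃ i ∈ F, ∀ l ∈ F, l ≠ i → low cx cy r i l px py := by
  obtain ⟨i, hi, hmin⟩ := Finset.exists_min_image F
    (fun i => toLex (pw cx cy r i px py, i)) hF
  refine ⟨i, hi, fun l hl hli => ?_⟩
  have h := hmin l hl
  rw [Prod.Lex.le_iff] at h
  rcases h with h | ⟨h1, h2⟩
  · exact Or.inl h
  · exact Or.inr ⟨h1, lt_of_le_of_ne h2 hli.symm⟩

theorem low_le {i l : ι} {px py : ℝ} (h : low cx cy r i l px py) :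
    pw cx cy r i px py ≤ pw cx cy r l px py := by
  rcases h with h | h
  · exact h.le
  · exact h.1.le

/-- membership of a point in disc `i` -/
def inD (i : ι) (px py : ℝ) : Prop := pw cx cy r i px py ≤ 0

open Classical in
theorem cf_n (m : ℕ) (F : Finset ι) (hm : 6 ^ m * F.card < 7 ^ m) :
    ∃ χ : ι → ℕ, (∀ i ∈ F, χ i < m) ∧ ∀ px py : ℝ, (∃ i ∈ F, inD cx cy r i px py) →
      ∃ i ∈ F, inD cx cy r i px py ∧ ∀ j ∈ F, j ≠ i → inD cx cy r j px py → χ j ≠ χ i := by
  induction m generalizing F with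
  | zero =>
    have : F.card = 0 := by simpa using hm
    rw [Finset.card_eq_zero] at this
    subst this
    exact ⟨fun _ => 0, by simp, by simp⟩
  | succ m ih =>
    obtain ⟨J, hJ1, hJ2, hJ3⟩ := Wedge.exists_indep (F := F) (dadj_symm cx cy r F)
      (dadj_irrefl cx cy r F) (dadj_sep cx cy r F)
    have hcard : (F \ J).card + J.card = F.card := Finset.card_sdiff_add_card_eq_card hJ1
    have hm' : 6 ^ m * (F \ J).card < 7 ^ m := by
      have h1 : 7 * (F \ J).card ≤ 6 * F.card := by omega
      have h2 : 6 ^ m * (7 * (F \ J).card) ≤ 6 ^ m * (6 * F.card) := Nat.mul_le_mul_left _ h1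
      have h3 : 6 ^ (m + 1) * F.card = 6 ^ m * (6 * F.card) := by ring
      have h4 : 6 ^ m * (7 * (F \ J).card) = 7 * (6 ^ m * (F \ J).card) := by ring
      have h5 : 7 ^ (m + 1) = 7 * 7 ^ m := by ring
      rw [h3, h5] at hm
      omega
    obtain ⟨χ', hχ1, hχ2⟩ := ih (F \ J) hm'
    refine ⟨fun i => if i ∈ J then m else χ' i, ?_, ?_⟩
    · intro i hi
      by_cases hiJ : i ∈ J
      · simp [hiJ]
      · have := hχ1 i (Finset.mem_sdiff.mpr ⟨hi, hiJ⟩)
        simp only [hiJ, if_false]
        omega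
    · intro px py hcov
      by_cases hout : ∃ i ∈ F \ J, inD cx cy r i px py
      · obtain ⟨i, hi, hi2, hi3⟩ := hχ2 px py hout
        have hi' := Finset.mem_sdiff.mp hi
        refine ⟨i, hi'.1, hi2, fun j hj hji hjD => ?_⟩
        by_cases hjJ : j ∈ J
        · have := hχ1 i hi
          simp only [hjJ, if_true, hi'.2, if_false]
          omega
        · simp only [hjJ, if_false, hi'.2]
          exact hi3 j (Finset.mem_sdiff.mpr ⟨hj, hjJ⟩) hji hjD
      · push Not at hout
        have hallJ : ∀ i ∈ F, inD cx cy r i px py → i ∈ J := by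
          intro i hi hiD
          by_contra hiJ
          exact hout i (Finset.mem_sdiff.mpr ⟨hi, hiJ⟩) hiD
        obtain ⟨i, hi, hiD⟩ := hcov
        refine ⟨i, hi, hiD, fun j hj hji hjD => ?_⟩
        exfalso
        -- the two lowest discs at the point
        obtain ⟨a, ha, ha2⟩ := exists_lowest cx cy r F ⟨i, hi⟩ px py
        have hne : (F.erase a).Nonempty := by
          by_cases hai : a = i
          · exact ⟨j, Finset.mem_erase.mpr ⟨by rw [hai]; exact hji, hj⟩⟩
          · exact ⟨i, Finset.mem_erase.mpr ⟨fun h => hai h.symm, hi⟩⟩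
        obtain ⟨b, hb, hb2⟩ := exists_lowest cx cy r (F.erase a) hne px py
        have hb' := Finset.mem_erase.mp hb
        have haD : inD cx cy r a px py := by
          by_cases hai : a = i
          · rw [hai]; exact hiD
          · exact (low_le cx cy r (ha2 i hi fun h => hai h.symm)).trans hiD
        have hbD : inD cx cy r b px py := by
          by_cases hbi : b = i
          · rw [hbi]; exact hiD
          by_cases hbj : b = j
          · rw [hbj]; exact hjD
          by_cases hai : a = i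
          · exact (low_le cx cy r (hb2 j (Finset.mem_erase.mpr ⟨by rw [hai]; exact hji, hj⟩)
              fun h => hbj h.symm)).trans hjD
          · exact (low_le cx cy r (hb2 i (Finset.mem_erase.mpr ⟨fun h => hai h.symm, hi⟩)
              fun h => hbi h.symm)).trans hiD
        apply hJ2 a (hallJ a ha haD) b (hallJ b hb'.2 hbD)
        refine ⟨hb'.1.symm, ha, hb'.2, px, py, fun l hl hla hlb => ⟨ha2 l hl hla, ?_⟩⟩
        exact hb2 l (Finset.mem_erase.mpr ⟨hla, hl⟩) hlb

end CFn

end Pool.Agent.H.MP_91129c_co
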