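import Pool.Agent.H.MP_91129c_co.K33

/-!
Digitising a finite family of discs on the square grid.
-/

namespace Pool.Agent.H.MP_91129c_co

open Filter Topology Metric

theorem digit_conn (C1 C2 ρ : ℝ) (hρ : 1 ≤ ρ) (S : Set (ℤ × ℤ))
    (hS : S = {z : ℤ × ℤ | ((z.1 : ℝ) - C1) ^ 2 + ((z.2 : ℝ) - C2) ^ 2 ≤ ρ ^ 2}) :
    S.Nonempty ∧ ∀ p ∈ S, ∀ q ∈ S, Jn gadj S p q := by
  have hmem : ∀ z : ℤ × ℤ, z ∈ S ↔ ((z.1 : ℝ) - C1) ^ 2 + ((z.2 : ℝ) - C2) ^ 2 ≤ ρ ^ 2 := by
    intro z; rw [hS]; rfl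
  have r1 := abs_le.mp (abs_sub_round C1)
  have r2 := abs_le.mp (abs_sub_round C2)
  set m1 := round C1
  set m2 := round C2
  have h0 : ((m1, m2) : ℤ × ℤ) ∈ S := by
    rw [hmem]
    have e1 : ((m1 : ℝ) - C1) ^ 2 ≤ 1 / 4 := by nlinarith
    have e2 : ((m2 : ℝ) - C2) ^ 2 ≤ 1 / 4 := by nlinarith
    have e3 : (1 : ℝ) ≤ ρ ^ 2 := by nlinarith
    simp only
    linarith
  have key : ∀ n : ℕ, ∀ z ∈ S, (z.1 - m1).natAbs + (z.2 - m2).natAbs = n →
      Jn gadj S z (m1, m2) := by
    intro n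
    induction n with
    | zero =>
      intro z hz hn
      have : z = (m1, m2) := by
        ext <;> simp <;> omega
      rw [this]
      exact Jn.refl h0
    | succ n ih =>
      intro z hz hn
      have hz' := (hmem z).mp hz
      obtain ⟨a, b⟩ := z
      simp only at hn hz'
      rcases lt_trichotomy a m1 with h | h | h
      · have hR : (a : ℝ) + 1 ≤ m1 := by exact_mod_cast h
        have hin : ((a + 1, b) : ℤ × ℤ) ∈ S := by
          rw [hmem]; push_cast; nlinarith
        exact (Jn.single hz hin (by left; simp)).trans (ih _ hin (by simp only; omega))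
      · rcases lt_trichotomy b m2 with h' | h' | h'
        · have hR : (b : ℝ) + 1 ≤ m2 := by exact_mod_cast h'
          have hin : ((a, b + 1) : ℤ × ℤ) ∈ S := by
            rw [hmem]; push_cast; nlinarith
          exact (Jn.single hz hin (by right; right; left; simp)).trans
            (ih _ hin (by simp only; omega))
        · omega
        · have hR : (m2 : ℝ) + 1 ≤ b := by exact_mod_cast h'
          have hin : ((a, b - 1) : ℤ × ℤ) ∈ S := by
            rw [hmem]; push_cast; nlinarith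
          exact (Jn.single hz hin (by right; right; right; simp)).trans
            (ih _ hin (by simp only; omega))
      · have hR : (m1 : ℝ) + 1 ≤ a := by exact_mod_cast h
        have hin : ((a - 1, b) : ℤ × ℤ) ∈ S := by
          rw [hmem]; push_cast; nlinarith
        exact (Jn.single hz hin (by right; left; simp)).trans (ih _ hin (by simp only; omega))
  refine ⟨⟨_, h0⟩, fun p hp q hq => ?_⟩
  exact (key _ p hp rfl).trans ((key _ q hq rfl).symm gadj_symm)

abbrev Plane := EuclideanSpace ℝ (Fin 2)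

theorem dist_le_iff (p q : Plane) {ρ : ℝ} (hρ : 0 ≤ ρ) :
    dist p q ≤ ρ ↔ (p 0 - q 0) ^ 2 + (p 1 - q 1) ^ 2 ≤ ρ ^ 2 := by
  rw [EuclideanSpace.dist_eq, Fin.sum_univ_two, Real.sqrt_le_left hρ, Real.dist_eq, Real.dist_eq,
    sq_abs, sq_abs]

theorem exists_digit {ι : Type*} [Finite ι] (c : ι → Plane) (r : ι → ℝ) (hr : ∀ i, 0 < r i) :
    ∃ R : ι → Set (ℤ × ℤ), (∀ i, (R i).Nonempty) ∧
      (∀ i, ∀ p ∈ R i, ∀ q ∈ R i, Jn gadj (R i) p q) ∧
      ∀ i j, (R i ∩ R j).Nonempty ↔
        (closedBall (c i) (r i) ∩ closedBall (c j) (r j)).Nonempty := by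
  obtain ⟨δ, hδ1, hδ2⟩ : ∃ δ : ℝ, (∀ i j, r i + r j < dist (c i) (c j) →
      r i + r j + 2 * δ < dist (c i) (c j)) ∧ 0 < δ := by
    have h1 : ∀ᶠ δ in 𝓝[>] (0 : ℝ), ∀ i j, r i + r j < dist (c i) (c j) →
        r i + r j + 2 * δ < dist (c i) (c j) := by
      rw [Filter.eventually_all]
      intro i
      rw [Filter.eventually_all]
      intro j
      by_cases h : r i + r j < dist (c i) (c j)
      · have : ∀ᶠ δ in 𝓝 (0 : ℝ), r i + r j + 2 * δ < dist (c i) (c j) := by
          refine ContinuousAt.eventually_lt (Continuous.continuousAt (by fun_prop))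
            continuousAt_const ?_
          simpa using h
        exact (this.filter_mono nhdsWithin_le_nhds).mono fun δ hδ _ => hδ
      · exact Filter.Eventually.of_forall fun δ h' => absurd h' h
    have h2 : ∀ᶠ δ in 𝓝[>] (0 : ℝ), 0 < δ := self_mem_nhdsWithin
    exact (h1.and h2).exists
  obtain ⟨N, hN⟩ := exists_nat_gt (1 / δ)
  have hN0 : (0 : ℝ) < N := lt_trans (by positivity) hN
  have hNδ : 1 < N * δ := by
    rw [div_lt_iff₀ hδ2] at hN
    exact hN
  let φ : ℤ × ℤ → Plane := fun z => !₂[(z.1 : ℝ) / N, (z.2 : ℝ) / N]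
  have hφ : ∀ (z : ℤ × ℤ) (i : ι), dist (φ z) (c i) ≤ r i + δ ↔
      ((z.1 : ℝ) - N * c i 0) ^ 2 + ((z.2 : ℝ) - N * c i 1) ^ 2 ≤ (N * (r i + δ)) ^ 2 := by
    intro z i
    rw [dist_le_iff _ _ (by have := hr i; linarith)]
    have e0 : (φ z) 0 = (z.1 : ℝ) / N := by simp [φ]
    have e1 : (φ z) 1 = (z.2 : ℝ) / N := by simp [φ]
    rw [e0, e1]
    have k1 : ((z.1 : ℝ) - N * c i 0) ^ 2 + ((z.2 : ℝ) - N * c i 1) ^ 2 =
        N ^ 2 * (((z.1 : ℝ) / N - c i 0) ^ 2 + ((z.2 : ℝ) / N - c i 1) ^ 2) := by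
      field_simp
    rw [k1, mul_pow]
    have hN2 : (0 : ℝ) < (N : ℝ) ^ 2 := by positivity
    exact (mul_le_mul_iff_right₀ hN2).symm
  refine ⟨fun i => {z | dist (φ z) (c i) ≤ r i + δ}, ?_, ?_, ?_⟩
  · intro i
    refine (digit_conn (N * c i 0) (N * c i 1) (N * (r i + δ)) ?_ _ ?_).1
    · have := hr i
      nlinarith
    · ext z; exact hφ z i
  · intro i
    refine (digit_conn (N * c i 0) (N * c i 1) (N * (r i + δ)) ?_ _ ?_).2
    · have := hr i
      nlinarith
    · ext z; exact hφ z i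
  · intro i j
    constructor
    · rintro ⟨z, hz1, hz2⟩
      have hz1 : dist (φ z) (c i) ≤ r i + δ := hz1
      have hz2 : dist (φ z) (c j) ≤ r j + δ := hz2
      have h1 : dist (c i) (c j) ≤ r i + r j + 2 * δ := by
        have := dist_triangle_left (c i) (c j) (φ z)
        linarith
      have h2 : dist (c i) (c j) ≤ r i + r j := by
        by_contra hcon
        push Not at hcon
        have := hδ1 i j hcon
        linarith
      obtain ⟨p, hp1, hp2⟩ := exists_dist_le_le (x := c i) (z := c j) (hr i).le (hr j).le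
        (by linarith)
      refine ⟨p, ?_, ?_⟩
      · rw [mem_closedBall, dist_comm]; exact hp1
      · rw [mem_closedBall]; exact hp2
    · rintro ⟨p, hp1, hp2⟩
      rw [mem_closedBall] at hp1 hp2
      let z : ℤ × ℤ := (round (N * p 0), round (N * p 1))
      have hz : dist (φ z) p ≤ δ := by
        rw [dist_le_iff _ _ hδ2.le]
        have e0 : (φ z) 0 = (round (N * p 0) : ℝ) / N := by simp [φ, z]
        have e1 : (φ z) 1 = (round (N * p 1) : ℝ) / N := by simp [φ, z]
        rw [e0, e1]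
        have r1 := abs_le.mp (abs_sub_round (N * p 0))
        have r2 := abs_le.mp (abs_sub_round (N * p 1))
        have k1 : ((round (N * p 0) : ℝ) / N - p 0) ^ 2 + ((round (N * p 1) : ℝ) / N - p 1) ^ 2 =
          (((round (N * p 0) : ℝ) - N * p 0) ^ 2 + ((round (N * p 1) : ℝ) - N * p 1) ^ 2)
            / N ^ 2 := by
          field_simp
        rw [k1, div_le_iff₀ (by positivity)]
        have s1 : ((round (N * p 0) : ℝ) - N * p 0) ^ 2 ≤ 1 / 4 := by nlinarith
        have s2 : ((round (N * p 1) : ℝ) - N * p 1) ^ 2 ≤ 1 / 4 := by nlinarith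
        have s3 : 1 ≤ δ ^ 2 * N ^ 2 := by
          rw [← mul_pow]
          nlinarith
        linarith
      refine ⟨z, ?_, ?_⟩
      · show dist (φ z) (c i) ≤ r i + δ
        have := dist_triangle (φ z) p (c i)
        linarith
      · show dist (φ z) (c j) ≤ r j + δ
        have := dist_triangle (φ z) p (c j)
        linarith

end Pool.Agent.H.MP_91129c_co
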