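import Pool.Agent.H.MP_91129c_co.Layer
import Pool.Agent.H.MP_91129c_co.Digit
import Pool.Agent.H.MP_91129c_co.CFn

/-!
Assembly: discs meeting at most `k` others can be conflict-free coloured with `4 m` colours
as soon as `6 ^ m * (k + 1) ^ 28 < 7 ^ m`.
-/

namespace Pool.Agent.H.MP_91129c_co

open Metric

section Ball

variable {ι V : Type*} {adj : V → V → Prop} {R : ι → Set V}

/-- two regions meet -/
def MR (R : ι → Set V) (a b : ι) : Prop := (R a ∩ R b).Nonempty

theorem wn_regions {n : ℕ} {p q : V} {i j : ι} (h : Wn (hop adj R Set.univ) n p q)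
    (hp : p ∈ R i) (hq : q ∈ R j) : Wn (MR R) (n + 1) i j := by
  induction n generalizing q j with
  | zero =>
    cases h
    exact Wn.one ⟨p, hp, hq⟩
  | succ n ih =>
    obtain ⟨z, hz, h⟩ := h
    rcases h with rfl | ⟨l, hl⟩
    · exact (ih hz hq).succ
    · have h1 := ih hz hl.left_mem.1
      exact h1.trans (Wn.one ⟨q, hl.right_mem.1, hq⟩)

open Classical in
theorem ball_card [Fintype ι] (r : ι → ι → Prop) (k : ℕ)
    (hk0 : ∀ i, ({j | j ≠ i ∧ r i j} : Set ι).ncard ≤ k) (n : ℕ) (i : ι) :
    (Finset.univ.filter (fun j => Wn r n i j)).card ≤ (k + 1) ^ n := by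
  have hk : ∀ i, (Finset.univ.filter (fun j => j ≠ i ∧ r i j)).card ≤ k := by
    intro i
    have h1 : ((Finset.univ.filter (fun j => j ≠ i ∧ r i j) : Finset ι) : Set ι) =
        {j | j ≠ i ∧ r i j} := by
      ext j; simp
    have h2 := hk0 i
    rw [← h1, Set.ncard_coe_finset] at h2
    exact h2
  induction n with
  | zero =>
    rw [pow_zero, Finset.card_le_one]
    intro a ha b hb
    have ha' : i = a := (Finset.mem_filter.mp ha).2
    have hb' : i = b := (Finset.mem_filter.mp hb).2
    rw [← ha', ← hb']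
  | succ n ih =>
    have hsub : Finset.univ.filter (fun j => Wn r (n + 1) i j) ⊆
        (Finset.univ.filter (fun j => Wn r n i j)).biUnion
          (fun z => insert z (Finset.univ.filter (fun j => j ≠ z ∧ r z j))) := by
      intro j hj
      obtain ⟨z, hz, h⟩ := (Finset.mem_filter.mp hj).2
      rw [Finset.mem_biUnion]
      refine ⟨z, Finset.mem_filter.mpr ⟨Finset.mem_univ _, hz⟩, ?_⟩
      rw [Finset.mem_insert, Finset.mem_filter]
      by_cases hjz : j = z
      · exact Or.inl hjz
      · rcases h with h | h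
        · exact Or.inl h.symm
        · exact Or.inr ⟨Finset.mem_univ _, hjz, h⟩
    refine (Finset.card_le_card hsub).trans ?_
    refine (Finset.card_biUnion_le_card_mul _ _ (k + 1) ?_).trans ?_
    · intro z _
      exact (Finset.card_insert_le _ _).trans (Nat.add_le_add_right (hk z) 1)
    · rw [pow_succ]
      exact Nat.mul_le_mul_right _ ih

end Ball

theorem k33free : K33Free gadj := fun x y K hJ hd => K33 x y K hJ hd

/-- a code for pairs of booleans -/
def code (b : Bool × Bool) : ℕ := (if b.1 then 1 else 0) + (if b.2 then 2 else 0)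

theorem code_lt (b : Bool × Bool) : code b < 4 := by
  obtain ⟨b1, b2⟩ := b
  cases b1 <;> cases b2 <;> simp [code]

theorem code_inj {a b : Bool × Bool} (h : code a = code b) : a = b := by
  obtain ⟨a1, a2⟩ := a
  obtain ⟨b1, b2⟩ := b
  cases a1 <;> cases a2 <;> cases b1 <;> cases b2 <;> simp [code] at h ⊢

theorem inD_iff {ι : Type*} (c : ι → Plane) (r : ι → ℝ) (hr : ∀ i, 0 < r i) (i : ι) (p : Plane) :
    inD (fun i => c i 0) (fun i => c i 1) r i (p 0) (p 1) ↔ p ∈ closedBall (c i) (r i) := by
  rw [mem_closedBall, dist_le_iff _ _ (hr i).le]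
  unfold inD pw
  rw [sub_nonpos]

open Classical in
theorem core (n k m : ℕ) (c : Fin n → Plane) (r : Fin n → ℝ) (hr : ∀ i, 0 < r i)
    (hk : ∀ i, ({j | j ≠ i ∧
      (closedBall (c i) (r i) ∩ closedBall (c j) (r j)).Nonempty} : Set (Fin n)).ncard ≤ k)
    (hm : 6 ^ m * (k + 1) ^ 28 < 7 ^ m) :
    ∃ χ : Fin n → ℕ, (∀ i, χ i < 4 * m) ∧ ∀ p : Plane, (∃ i, p ∈ closedBall (c i) (r i)) →
      ∃ i, p ∈ closedBall (c i) (r i) ∧
        ∀ j, j ≠ i → p ∈ closedBall (c j) (r j) → χ j ≠ χ i := by
  obtain ⟨R, hR1, hR2, hR3⟩ := exists_digit c r hr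
  let S : Fin n → Fin n → Prop := fun a b =>
    (R a ∩ R b).Nonempty ∧ lcol gadj R a = lcol gadj R b
  have hSsymm : ∀ a b, S a b → S b a := by
    rintro a b ⟨h1, h2⟩
    exact ⟨by rw [Set.inter_comm]; exact h1, h2.symm⟩
  have hMk : ∀ i, ({j | j ≠ i ∧ MR R i j} : Set (Fin n)).ncard ≤ k := by
    intro i
    have h1 : ({j | j ≠ i ∧ MR R i j} : Set (Fin n)) = {j | j ≠ i ∧
        (closedBall (c i) (r i) ∩ closedBall (c j) (r j)).Nonempty} := by
      ext j
      exact and_congr_right fun _ => hR3 i j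
    rw [h1]
    exact hk i
  let F : Fin n → Finset (Fin n) := fun ρ => Finset.univ.filter (fun j => root S j = ρ)
  have hcard : ∀ ρ, (F ρ).card ≤ (k + 1) ^ 28 := by
    intro ρ
    rcases Finset.eq_empty_or_nonempty (F ρ) with h | ⟨i, hi⟩
    · rw [h]; simp
    · have hi' : root S i = ρ := (Finset.mem_filter.mp hi).2
      refine le_trans (Finset.card_le_card ?_) (ball_card (MR R) k hMk 28 i)
      intro j hj
      have hj' : root S j = ρ := (Finset.mem_filter.mp hj).2
      rw [Finset.mem_filter]
      refine ⟨Finset.mem_univ _, ?_⟩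
      obtain ⟨a, ha⟩ := exists_wn_root hSsymm i
      obtain ⟨b, hb⟩ := exists_wn_root hSsymm j
      rw [hi'] at ha
      rw [hj'] at hb
      have hij : Wn S (a + b) i j := (ha.symm hSsymm).trans hb
      have hrt : Relation.ReflTransGen S i j := by
        clear ha hb hj hj'
        generalize a + b = t at hij
        induction t generalizing j with
        | zero => cases hij; exact Relation.ReflTransGen.refl
        | succ t ih =>
          obtain ⟨z, hz, h⟩ := hij
          have := ih hz
          rcases h with rfl | h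
          · exact this
          · exact this.tail h
      obtain ⟨p, hp⟩ := hR1 i
      obtain ⟨q, hq⟩ := hR1 j
      exact wn_regions (layering gadj_symm k33free hR1 hR2 i j hrt p q hp hq) hp hq
  have hcf : ∀ ρ, ∃ χ : Fin n → ℕ, (∀ i ∈ F ρ, χ i < m) ∧ ∀ px py : ℝ,
      (∃ i ∈ F ρ, inD (fun i => c i 0) (fun i => c i 1) r i px py) →
      ∃ i ∈ F ρ, inD (fun i => c i 0) (fun i => c i 1) r i px py ∧ ∀ j ∈ F ρ, j ≠ i →
        inD (fun i => c i 0) (fun i => c i 1) r j px py → χ j ≠ χ i := by
    intro ρ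
    apply cf_n
    exact lt_of_le_of_lt (Nat.mul_le_mul_left _ (hcard ρ)) hm
  choose X hX1 hX2 using hcf
  have hmemF : ∀ i, i ∈ F (root S i) := fun i =>
    Finset.mem_filter.mpr ⟨Finset.mem_univ _, rfl⟩
  refine ⟨fun i => code (lcol gadj R i) * m + X (root S i) i, ?_, ?_⟩
  · intro i
    have h1 := hX1 (root S i) i (hmemF i)
    have h2 := code_lt (lcol gadj R i)
    have h3 : (code (lcol gadj R i) + 1) * m ≤ 4 * m := Nat.mul_le_mul_right _ h2
    calc code (lcol gadj R i) * m + X (root S i) i < code (lcol gadj R i) * m + m := by omega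
      _ = (code (lcol gadj R i) + 1) * m := by ring
      _ ≤ 4 * m := h3
  · rintro p ⟨i0, hi0⟩
    obtain ⟨i, hi1, hi2, hi3⟩ := hX2 (root S i0) (p 0) (p 1)
      ⟨i0, hmemF i0, (inD_iff c r hr i0 p).mpr hi0⟩
    have hiroot : root S i = root S i0 := (Finset.mem_filter.mp hi1).2
    have hip := (inD_iff c r hr i p).mp hi2
    refine ⟨i, hip, fun j hji hjp heq => ?_⟩
    have hmeet : (R i ∩ R j).Nonempty := (hR3 i j).mpr ⟨p, hip, hjp⟩
    by_cases hcol : lcol gadj R i = lcol gadj R j
    · have hroot : root S i = root S j := root_eq ⟨hmeet, hcol⟩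
      have hjF : j ∈ F (root S i0) :=
        Finset.mem_filter.mpr ⟨Finset.mem_univ _, by rw [← hroot, hiroot]⟩
      apply hi3 j hjF hji ((inD_iff c r hr j p).mpr hjp)
      have heq' : code (lcol gadj R j) * m + X (root S j) j =
        code (lcol gadj R i) * m + X (root S i) i := heq
      rw [← hcol, ← hroot, hiroot] at heq'
      omega
    · have heq' : code (lcol gadj R j) * m + X (root S j) j =
        code (lcol gadj R i) * m + X (root S i) i := heq
      have h1 := hX1 (root S i) i (hmemF i)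
      have h2 := hX1 (root S j) j (hmemF j)
      have hne : code (lcol gadj R j) ≠ code (lcol gadj R i) := fun h => hcol (code_inj h).symm
      rcases lt_or_gt_of_ne hne with hlt | hlt
      · have : (code (lcol gadj R j) + 1) * m ≤ code (lcol gadj R i) * m :=
          Nat.mul_le_mul_right _ hlt
        nlinarith
      · have : (code (lcol gadj R i) + 1) * m ≤ code (lcol gadj R j) * m :=
          Nat.mul_le_mul_right _ hlt
        nlinarith

end Pool.Agent.H.MP_91129c_co
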