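import Pool.Agent.H.MP_91129c_co.Wedge

/-!
Perturbation to general position and linear-size independent sets.
-/

namespace Pool.Agent.H.MP_91129c_co

namespace Wedge

open Filter Topology

variable {V : Type*} {F : Finset V} {x y : V → ℝ} {adj : V → V → Prop}

theorem eventually_notMem_finite {Z : Set ℝ} (hZ : Z.Finite) : ∀ᶠ t in 𝓝[≠] (0 : ℝ), t ∉ Z := by
  have h1 : IsClosed (Z \ {0}) := (hZ.subset Set.sdiff_subset).isClosed
  have h2 : ∀ᶠ t in 𝓝 (0 : ℝ), t ∉ Z \ {0} :=
    h1.isOpen_compl.mem_nhds (by simp)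
  have h3 : ∀ᶠ t in 𝓝[≠] (0 : ℝ), t ∉ Z \ {0} := h2.filter_mono nhdsWithin_le_nhds
  have h4 : ∀ᶠ t in 𝓝[≠] (0 : ℝ), t ≠ 0 := self_mem_nhdsWithin
  filter_upwards [h3, h4] with t ht1 ht2 htZ
  exact ht1 ⟨htZ, ht2⟩

theorem finite_quadratic (A B C : ℝ) (h : B ≠ 0 ∨ C ≠ 0) :
    {t : ℝ | A + B * t + C * t ^ 2 = 0}.Finite := by
  let p : Polynomial ℝ := Polynomial.C A + Polynomial.C B * Polynomial.X +
    Polynomial.C C * Polynomial.X ^ 2
  have hp : p ≠ 0 := by
    intro h0
    have e1 : p.coeff 1 = B := by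
      simp [p, Polynomial.coeff_C]
    have e2 : p.coeff 2 = C := by
      simp [p]
    rw [h0, Polynomial.coeff_zero] at e1 e2
    rcases h with h | h
    · exact h e1.symm
    · exact h e2.symm
  refine (Polynomial.finite_setOfPred_isRoot hp).subset ?_
  intro t ht
  have ht' : A + B * t + C * t ^ 2 = 0 := ht
  simp only [Set.mem_ofPred_eq, Polynomial.IsRoot.def, p, Polynomial.eval_add, Polynomial.eval_C,
    Polynomial.eval_mul, Polynomial.eval_X, Polynomial.eval_pow]
  exact ht'

theorem exists_injOn (F : Finset V) : ∃ s : V → ℝ, ∀ a ∈ F, ∀ b ∈ F, a ≠ b → s a ≠ s b := by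
  classical
  refine ⟨fun v => if h : v ∈ F then ((F.equivFin ⟨v, h⟩ : ℕ) : ℝ) else 0, ?_⟩
  intro a ha b hb hab h
  simp only [ha, hb, dif_pos] at h
  have h1 : ((F.equivFin ⟨a, ha⟩ : Fin F.card) : ℕ) = (F.equivFin ⟨b, hb⟩ : ℕ) := by
    exact_mod_cast h
  have h2 := F.equivFin.injective (Fin.ext h1)
  exact hab (by simpa using h2)

/-- perturbation to general position -/
theorem exists_perturb (hsep : Sep F x y adj) : ∃ x' y' : V → ℝ, Gen F x' y' ∧
    Sep F x' y' adj := by
  obtain ⟨s, hs⟩ := exists_injOn F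
  have h1 : ∀ᶠ t in 𝓝[≠] (0 : ℝ), ∀ a ∈ F, ∀ b ∈ F, a ≠ b → x a + t * s a ≠ x b + t * s b := by
    refine (Filter.eventually_all_finset F).mpr fun a ha => (Filter.eventually_all_finset F).mpr
      fun b hb => ?_
    by_cases hab : a = b
    · exact Filter.Eventually.of_forall fun t h => absurd hab h
    · have hfin := finite_quadratic (x a - x b) (s a - s b) 0
        (Or.inl (sub_ne_zero.mpr (hs a ha b hb hab)))
      filter_upwards [eventually_notMem_finite hfin] with t ht _ heq
      apply ht
      show x a - x b + (s a - s b) * t + 0 * t ^ 2 = 0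
      linear_combination heq
  have h2 : ∀ᶠ t in 𝓝[≠] (0 : ℝ), ∀ a ∈ F, ∀ b ∈ F, ∀ c ∈ F, a ≠ b → a ≠ c → b ≠ c →
      ((y b + t * s b ^ 2) - (y a + t * s a ^ 2)) * ((x c + t * s c) - (x a + t * s a)) ≠
      ((y c + t * s c ^ 2) - (y a + t * s a ^ 2)) * ((x b + t * s b) - (x a + t * s a)) := by
    refine (Filter.eventually_all_finset F).mpr fun a ha => (Filter.eventually_all_finset F).mpr
      fun b hb => (Filter.eventually_all_finset F).mpr fun c hc => ?_
    by_cases hab : a = b
    · exact Filter.Eventually.of_forall fun t h => absurd hab h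
    by_cases hac : a = c
    · exact Filter.Eventually.of_forall fun t _ h => absurd hac h
    by_cases hbc : b = c
    · exact Filter.Eventually.of_forall fun t _ _ h => absurd hbc h
    have hC : (s b ^ 2 - s a ^ 2) * (s c - s a) - (s c ^ 2 - s a ^ 2) * (s b - s a) ≠ 0 := by
      have : (s b ^ 2 - s a ^ 2) * (s c - s a) - (s c ^ 2 - s a ^ 2) * (s b - s a) =
        (s b - s a) * ((s c - s a) * (s b - s c)) := by ring
      rw [this]
      exact mul_ne_zero (sub_ne_zero.mpr (hs b hb a ha (Ne.symm hab)))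
        (mul_ne_zero (sub_ne_zero.mpr (hs c hc a ha (Ne.symm hac)))
          (sub_ne_zero.mpr (hs b hb c hc hbc)))
    have hfin := finite_quadratic ((y b - y a) * (x c - x a) - (y c - y a) * (x b - x a))
      ((y b - y a) * (s c - s a) + (s b ^ 2 - s a ^ 2) * (x c - x a) -
        (y c - y a) * (s b - s a) - (s c ^ 2 - s a ^ 2) * (x b - x a))
      ((s b ^ 2 - s a ^ 2) * (s c - s a) - (s c ^ 2 - s a ^ 2) * (s b - s a)) (Or.inr hC)
    filter_upwards [eventually_notMem_finite hfin] with t ht _ _ _ heq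
    apply ht
    show (y b - y a) * (x c - x a) - (y c - y a) * (x b - x a) +
      ((y b - y a) * (s c - s a) + (s b ^ 2 - s a ^ 2) * (x c - x a) -
        (y c - y a) * (s b - s a) - (s c ^ 2 - s a ^ 2) * (x b - x a)) * t +
      ((s b ^ 2 - s a ^ 2) * (s c - s a) - (s c ^ 2 - s a ^ 2) * (s b - s a)) * t ^ 2 = 0
    linear_combination heq
  have h3 : ∀ᶠ t in 𝓝[≠] (0 : ℝ), Sep F (fun v => x v + t * s v) (fun v => y v + t * s v ^ 2)
      adj := by
    unfold Sep
    refine (Filter.eventually_all_finset F).mpr fun a ha => (Filter.eventually_all_finset F).mpr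
      fun b hb => (Filter.eventually_all_finset F).mpr fun c hc =>
      (Filter.eventually_all_finset F).mpr fun d hd => ?_
    by_cases hall : adj a b ∧ adj c d ∧ a ≠ c ∧ a ≠ d ∧ b ≠ c ∧ b ≠ d
    · obtain ⟨q1, q2, q3, q4, q5, q6⟩ := hall
      obtain ⟨u, v, k1, k2, k3, k4⟩ := hsep a ha b hb c hc d hd q1 q2 q3 q4 q5 q6
      have hcont : ∀ p q : V, u * x p + v * y p < u * x q + v * y q →
          ∀ᶠ t in 𝓝[≠] (0 : ℝ), u * (x p + t * s p) + v * (y p + t * s p ^ 2) <
            u * (x q + t * s q) + v * (y q + t * s q ^ 2) := by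
        intro p q hpq
        refine Filter.Eventually.filter_mono nhdsWithin_le_nhds ?_
        refine ContinuousAt.eventually_lt (Continuous.continuousAt (by fun_prop))
          (Continuous.continuousAt (by fun_prop)) ?_
        simpa using hpq
      filter_upwards [hcont _ _ k1, hcont _ _ k2, hcont _ _ k3, hcont _ _ k4] with t m1 m2 m3 m4
      intro _ _ _ _ _ _
      exact ⟨u, v, m1, m2, m3, m4⟩
    · refine Filter.Eventually.of_forall fun t q1 q2 q3 q4 q5 q6 => ?_
      exact absurd ⟨q1, q2, q3, q4, q5, q6⟩ hall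
  obtain ⟨t, ht1, ht2, ht3⟩ := (h1.and (h2.and h3)).exists
  refine ⟨fun v => x v + t * s v, fun v => y v + t * s v ^ 2, ⟨ht1, ?_⟩, ht3⟩
  intro a ha b hb c hc hab hac hbc heq
  apply ht2 a ha b hb c hc hab hac hbc
  have e1 : (x b + t * s b) - (x a + t * s a) ≠ 0 := sub_ne_zero.mpr (ht1 b hb a ha (Ne.symm hab))
  have e2 : (x c + t * s c) - (x a + t * s a) ≠ 0 := sub_ne_zero.mpr (ht1 c hc a ha (Ne.symm hac))
  unfold slope at heq
  simp only at heq
  rw [div_eq_div_iff e1 e2] at heq
  exact heq

theorem Sep.mono {F' : Finset V} (h : F' ⊆ F) (hsep : Sep F x y adj) : Sep F' x y adj :=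
  fun a ha b hb c hc d hd => hsep a (h ha) b (h hb) c (h hc) d (h hd)

open Classical in
theorem sum_degree_le (hsym : ∀ a b, adj a b → adj b a) (hirr : ∀ a, ¬ adj a a)
    (hsep : Sep F x y adj) : ∑ a ∈ F, (F.filter (fun b => adj a b)).card ≤ 6 * F.card := by
  obtain ⟨x', y', hg, hs⟩ := exists_perturb hsep
  have h1 := edges_le hg hs
  have h2 : ((F ×ˢ F).filter (fun p => adj p.1 p.2)).card =
      ∑ a ∈ F, (F.filter (fun b => adj a b)).card := by
    rw [Finset.card_filter, Finset.sum_product]
    refine Finset.sum_congr rfl fun a _ => ?_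
    rw [Finset.card_filter]
  rw [← h2]
  have h3 : (F ×ˢ F).filter (fun p => adj p.1 p.2) ⊆
      ((F ×ˢ F).filter (fun p => adj p.1 p.2 ∧ x' p.1 < x' p.2)) ∪
      ((F ×ˢ F).filter (fun p => adj p.1 p.2 ∧ x' p.1 < x' p.2)).image Prod.swap := by
    intro p hp
    obtain ⟨a, b⟩ := p
    simp only [Finset.mem_filter, Finset.mem_product] at hp
    obtain ⟨⟨ha, hb⟩, hab⟩ := hp
    have hne : a ≠ b := by rintro rfl; exact hirr a hab
    simp only [Finset.mem_union, Finset.mem_image, Finset.mem_filter, Finset.mem_product]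
    rcases lt_or_gt_of_ne (hg.1 a ha b hb hne) with hlt | hlt
    · exact Or.inl ⟨⟨ha, hb⟩, hab, hlt⟩
    · exact Or.inr ⟨(b, a), ⟨⟨hb, ha⟩, hsym a b hab, hlt⟩, rfl⟩
  have h4 := Finset.card_le_card h3
  have h5 := Finset.card_union_le
    ((F ×ˢ F).filter (fun p => adj p.1 p.2 ∧ x' p.1 < x' p.2))
    (((F ×ˢ F).filter (fun p => adj p.1 p.2 ∧ x' p.1 < x' p.2)).image Prod.swap)
  have h6 := Finset.card_image_le (s := (F ×ˢ F).filter (fun p => adj p.1 p.2 ∧ x' p.1 < x' p.2))
    (f := Prod.swap)
  omega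

open Classical in
theorem exists_indep (hsym : ∀ a b, adj a b → adj b a) (hirr : ∀ a, ¬ adj a a)
    (hsep : Sep F x y adj) : ∃ J ⊆ F, (∀ a ∈ J, ∀ b ∈ J, ¬ adj a b) ∧ F.card ≤ 7 * J.card := by
  induction hn : F.card using Nat.strong_induction_on generalizing F with
  | _ n ih =>
    rcases Finset.eq_empty_or_nonempty F with rfl | hne
    · exact ⟨∅, by simp, by simp, by simp at hn; omega⟩
    · have hsum := sum_degree_le hsym hirr hsep
      obtain ⟨v, hv, hdeg⟩ : ∃ v ∈ F, (F.filter (fun b => adj v b)).card ≤ 6 := by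
        by_contra hcon
        push Not at hcon
        have : ∑ _a ∈ F, 7 ≤ ∑ a ∈ F, (F.filter (fun b => adj a b)).card :=
          Finset.sum_le_sum fun a ha => hcon a ha
        rw [Finset.sum_const, smul_eq_mul] at this
        have hpos := hne.card_pos
        omega
      let F' := (F.erase v).filter (fun b => ¬ adj v b)
      have hF' : F' ⊆ F := (Finset.filter_subset _ _).trans (Finset.erase_subset _ _)
      have hcard : F.card ≤ F'.card + 7 := by
        have hsub : F ⊆ F' ∪ insert v (F.filter (fun b => adj v b)) := by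
          intro b hb
          simp only [F', Finset.mem_union, Finset.mem_filter, Finset.mem_erase, Finset.mem_insert]
          tauto
        have e1 := Finset.card_le_card hsub
        have e2 := Finset.card_union_le F' (insert v (F.filter (fun b => adj v b)))
        have e3 := Finset.card_insert_le v (F.filter (fun b => adj v b))
        omega
      have hlt : F'.card < n := by
        rw [← hn]
        apply Finset.card_lt_card
        refine ⟨hF', fun h => ?_⟩
        have := h hv
        simp [F'] at this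
      obtain ⟨J, hJ1, hJ2, hJ3⟩ := ih F'.card hlt (Sep.mono hF' hsep) rfl
      have hvJ : v ∉ J := by
        intro h
        have := hJ1 h
        simp [F'] at this
      refine ⟨insert v J, ?_, ?_, ?_⟩
      · intro b hb
        rcases Finset.mem_insert.mp hb with rfl | hb
        · exact hv
        · exact hF' (hJ1 hb)
      · have hJv : ∀ b ∈ J, ¬ adj v b := by
          intro b hb
          have := hJ1 hb
          simp only [F', Finset.mem_filter] at this
          exact this.2
        intro a ha b hb hab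
        rcases Finset.mem_insert.mp ha with ha' | ha'
        · subst ha'
          rcases Finset.mem_insert.mp hb with hb' | hb'
          · subst hb'
            exact hirr _ hab
          · exact hJv b hb' hab
        · rcases Finset.mem_insert.mp hb with hb' | hb'
          · subst hb'
            exact hJv a ha' (hsym _ _ hab)
          · exact hJ2 a ha' b hb' hab
      · rw [Finset.card_insert_of_notMem hvJ]
        omega

end Wedge

end Pool.Agent.H.MP_91129c_co
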