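import Mathlib

/-!
Square grid: no K33 formed by lattice walks with independent ones vertex-disjoint.
-/

namespace Pool.Agent.H.MP_91129c_co

/-- `Jn adj S p q`: `p` and `q` are joined by an `adj`-walk inside `S`. -/
def Jn {V : Type*} (adj : V → V → Prop) (S : Set V) (p q : V) : Prop :=
  p ∈ S ∧ Relation.ReflTransGen (fun a b => adj a b ∧ b ∈ S) p q

namespace Jn

variable {V : Type*} {adj : V → V → Prop} {S T : Set V} {p q r : V}

theorem left_mem (h : Jn adj S p q) : p ∈ S := h.1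

theorem right_mem (h : Jn adj S p q) : q ∈ S := by
  obtain ⟨hp, h⟩ := h
  rcases Relation.ReflTransGen.cases_tail h with h | ⟨c, _, h⟩
  · exact h ▸ hp
  · exact h.2

theorem refl (hp : p ∈ S) : Jn adj S p p := ⟨hp, Relation.ReflTransGen.refl⟩

theorem trans (h1 : Jn adj S p q) (h2 : Jn adj S q r) : Jn adj S p r :=
  ⟨h1.1, h1.2.trans h2.2⟩

theorem mono (h : Jn adj S p q) (hST : S ⊆ T) : Jn adj T p q :=
  ⟨hST h.1, Relation.ReflTransGen.mono (r := fun a b => adj a b ∧ b ∈ S)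
    (p := fun a b => adj a b ∧ b ∈ T) (fun _ _ hab => ⟨hab.1, hST hab.2⟩) _ _ h.2⟩

theorem single (hp : p ∈ S) (hq : q ∈ S) (h : adj p q) : Jn adj S p q :=
  ⟨hp, Relation.ReflTransGen.single ⟨h, hq⟩⟩

theorem tail (h : Jn adj S p q) (h2 : adj q r) (hr : r ∈ S) : Jn adj S p r :=
  ⟨h.1, h.2.tail ⟨h2, hr⟩⟩

/-- induction principle -/
theorem induct {P : V → Prop} (h : Jn adj S p q) (h0 : P p)
    (hs : ∀ a b, Jn adj S p a → adj a b → b ∈ S → P a → P b) : P q := by
  obtain ⟨hp, h⟩ := h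
  induction h with
  | refl => exact h0
  | tail hab hbc ih => exact hs _ _ ⟨hp, hab⟩ hbc.1 hbc.2 ih

theorem symm (hadj : ∀ a b, adj a b → adj b a) (h : Jn adj S p q) : Jn adj S q p := by
  refine h.induct (P := fun z => Jn adj S z p) (refl h.1) ?_
  intro a b _ hab hb iha
  exact (single hb iha.left_mem (hadj _ _ hab)).trans iha

/-- the component of `p` in `S` is itself joined to `p` -/
theorem comp (h : Jn adj S p q) : Jn adj {z | Jn adj S p z} p q := by
  refine h.induct (P := fun z => Jn adj {z | Jn adj S p z} p z) (refl (refl h.1)) ?_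
  intro a b ha hab hb iha
  exact iha.tail hab (ha.tail hab hb)

end Jn

/-- adjacency of the square grid -/
def gadj (p q : ℤ × ℤ) : Prop :=
  (q.1 = p.1 + 1 ∧ q.2 = p.2) ∨ (p.1 = q.1 + 1 ∧ p.2 = q.2) ∨
  (q.2 = p.2 + 1 ∧ q.1 = p.1) ∨ (p.2 = q.2 + 1 ∧ p.1 = q.1)

theorem gadj_symm (p q : ℤ × ℤ) (h : gadj p q) : gadj q p := by
  unfold gadj at *; tauto

/-- an edge of the grid: `(x, y, false)` is horizontal, `(x, y, true)` is vertical -/
abbrev GEdge := ℤ × ℤ × Bool

def esrc (e : GEdge) : ℤ × ℤ := (e.1, e.2.1)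
def etgt (e : GEdge) : ℤ × ℤ := if e.2.2 then (e.1, e.2.1 + 1) else (e.1 + 1, e.2.1)

open Classical in
/-- indicator with values in `ZMod 2` -/
noncomputable def ind (P : Prop) : ZMod 2 := if P then 1 else 0

theorem ind_true {P : Prop} (h : P) : ind P = 1 := by simp [ind, h]
theorem ind_false {P : Prop} (h : ¬ P) : ind P = 0 := by simp [ind, h]

noncomputable def bet (e f : GEdge) : ZMod 2 :=
  match e, f with
  | (a, b, false), (x, y, true) => ind (a = x ∧ b = y)
  | (a, b, true), (x, y, false) =>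
      ind (a = x + 1 ∧ b = y) + ind (a = x ∧ b + 1 = y) + ind (a = x + 1 ∧ b + 1 = y)
  | (a, b, false), (x, y, false) => ind (a = x ∧ b = y) + ind (a = x + 1 ∧ b = y)
  | (a, b, true), (x, y, true) => ind (a = x ∧ b = y) + ind (a = x ∧ b + 1 = y)

noncomputable def gam (e : GEdge) (z : ℤ × ℤ) : ZMod 2 :=
  match e, z with
  | (a, b, false), (x, y) => ind (a = x ∧ y ≤ b)
  | (a, b, true), (x, y) => ind (a = x ∧ b + 1 = y)

noncomputable def tau (f : GEdge) (z : ℤ × ℤ) : ZMod 2 :=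
  match f, z with
  | (x, y, false), (c, d) => ind (c = x + 1 ∧ y < d)
  | (_, _, true), _ => 0

theorem bet_eq (e f : GEdge) :
    bet e f = gam e (esrc f) + gam e (etgt f) + (tau f (esrc e) + tau f (etgt e)) := by
  obtain ⟨a, b, s⟩ := e
  obtain ⟨x, y, t⟩ := f
  cases s <;> cases t <;>
    simp only [bet, gam, tau, esrc, etgt, if_true, if_false, Bool.false_eq_true] <;>
    unfold ind <;> split_ifs <;> first | omega | decide

theorem bet_symm (e f : GEdge) :
    bet e f + bet f e = ind (esrc e = esrc f) + ind (esrc e = etgt f) +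
      (ind (etgt e = esrc f) + ind (etgt e = etgt f)) := by
  obtain ⟨a, b, s⟩ := e
  obtain ⟨x, y, t⟩ := f
  cases s <;> cases t <;>
    simp only [bet, esrc, etgt, if_true, if_false, Bool.false_eq_true, Prod.mk.injEq] <;>
    unfold ind <;> split_ifs <;> first | omega | decide

theorem bet_zero (e f : GEdge) (h1 : esrc e ≠ esrc f) (h2 : esrc e ≠ etgt f)
    (h3 : etgt e ≠ esrc f) (h4 : etgt e ≠ etgt f) : bet e f = 0 := by
  obtain ⟨a, b, s⟩ := e
  obtain ⟨x, y, t⟩ := f
  cases s <;> cases t <;>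
    simp only [bet, esrc, etgt, if_true, if_false, Bool.false_eq_true, Prod.mk.injEq, ne_eq]
      at h1 h2 h3 h4 ⊢ <;>
    unfold ind <;> split_ifs <;> first | omega | decide

noncomputable def BB (P Q : List GEdge) : ZMod 2 :=
  (P.map fun e => (Q.map fun f => bet e f).sum).sum

def IsChain (P : List GEdge) (p q : ℤ × ℤ) : Prop :=
  ∀ φ : ℤ × ℤ → ZMod 2, (P.map fun e => φ (esrc e) + φ (etgt e)).sum = φ p + φ q

noncomputable def GG (P : List GEdge) (z : ℤ × ℤ) : ZMod 2 := (P.map fun e => gam e z).sum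
noncomputable def TT (P : List GEdge) (z : ℤ × ℤ) : ZMod 2 := (P.map fun e => tau e z).sum

theorem sum_comm_list (P Q : List GEdge) (g : GEdge → GEdge → ZMod 2) :
    (P.map fun e => (Q.map fun f => g e f).sum).sum =
      (Q.map fun f => (P.map fun e => g e f).sum).sum := by
  induction P with
  | nil => simp
  | cons a P ih => simp [ih, List.sum_map_add]

theorem BB_eq {P Q : List GEdge} {p1 p2 q1 q2 : ℤ × ℤ} (hP : IsChain P p1 p2)
    (hQ : IsChain Q q1 q2) :
    BB P Q = GG P q1 + GG P q2 + (TT Q p1 + TT Q p2) := by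
  have h1 : BB P Q = (P.map fun e => (Q.map fun f => gam e (esrc f) + gam e (etgt f)).sum).sum +
      (P.map fun e => (Q.map fun f => tau f (esrc e) + tau f (etgt e)).sum).sum := by
    unfold BB
    rw [← List.sum_map_add]
    congr 1
    apply List.map_congr_left
    intro e _
    rw [← List.sum_map_add]
    congr 1
    apply List.map_congr_left
    intro f _
    exact bet_eq e f
  have h2 : (P.map fun e => (Q.map fun f => gam e (esrc f) + gam e (etgt f)).sum).sum =
      GG P q1 + GG P q2 := by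
    unfold GG
    rw [← List.sum_map_add]
    congr 1
    apply List.map_congr_left
    intro e _
    exact hQ (gam e)
  have h3 : (P.map fun e => (Q.map fun f => tau f (esrc e) + tau f (etgt e)).sum).sum =
      TT Q p1 + TT Q p2 := by
    have := hP (TT Q)
    rw [← this]
    congr 1
    apply List.map_congr_left
    intro e _
    unfold TT
    rw [← List.sum_map_add]
  rw [h1, h2, h3]

theorem BB_symm {P Q : List GEdge} {p1 p2 q1 q2 : ℤ × ℤ} (hP : IsChain P p1 p2)
    (hQ : IsChain Q q1 q2) :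
    BB P Q + BB Q P = ind (p1 = q1) + ind (p1 = q2) + (ind (p2 = q1) + ind (p2 = q2)) := by
  have h0 : BB Q P = (P.map fun e => (Q.map fun f => bet f e).sum).sum := by
    unfold BB
    exact sum_comm_list Q P _
  have h1 : BB P Q + BB Q P = (P.map fun e => (ind (esrc e = q1) + ind (esrc e = q2)) +
      (ind (etgt e = q1) + ind (etgt e = q2))).sum := by
    rw [h0]
    unfold BB
    rw [← List.sum_map_add]
    congr 1
    apply List.map_congr_left
    intro e _
    have e1 := hQ (fun z => ind (esrc e = z))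
    have e2 := hQ (fun z => ind (etgt e = z))
    rw [← e1, ← e2, ← List.sum_map_add, ← List.sum_map_add]
    congr 1
    apply List.map_congr_left
    intro f _
    rw [bet_symm e f]
  rw [h1]
  exact hP (fun z => ind (z = q1) + ind (z = q2))

theorem BB_zero {P Q : List GEdge} {S T : Set (ℤ × ℤ)} (hST : Disjoint S T)
    (hP : ∀ e ∈ P, esrc e ∈ S ∧ etgt e ∈ S) (hQ : ∀ e ∈ Q, esrc e ∈ T ∧ etgt e ∈ T) :
    BB P Q = 0 := by
  have hne : ∀ a ∈ S, ∀ b ∈ T, a ≠ b := fun a ha b hb => Set.disjoint_iff_forall_ne.mp hST ha hb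
  unfold BB
  apply List.sum_eq_zero
  intro x hx
  rw [List.mem_map] at hx
  obtain ⟨e, he, rfl⟩ := hx
  apply List.sum_eq_zero
  intro x hx
  rw [List.mem_map] at hx
  obtain ⟨f, hf, rfl⟩ := hx
  exact bet_zero e f (hne _ (hP e he).1 _ (hQ f hf).1) (hne _ (hP e he).1 _ (hQ f hf).2)
    (hne _ (hP e he).2 _ (hQ f hf).1) (hne _ (hP e he).2 _ (hQ f hf).2)

theorem exists_edge {p q : ℤ × ℤ} (h : gadj p q) :
    ∃ e : GEdge, (esrc e = p ∧ etgt e = q) ∨ (esrc e = q ∧ etgt e = p) := by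
  obtain ⟨a, b⟩ := p
  obtain ⟨c, d⟩ := q
  simp only [gadj] at h
  rcases h with ⟨h1, h2⟩ | ⟨h1, h2⟩ | ⟨h1, h2⟩ | ⟨h1, h2⟩
  · exact ⟨(a, b, false), Or.inl (by simp [esrc, etgt, h1, h2])⟩
  · exact ⟨(c, d, false), Or.inr (by simp [esrc, etgt, h1, h2])⟩
  · exact ⟨(a, b, true), Or.inl (by simp [esrc, etgt, h1, h2])⟩
  · exact ⟨(c, d, true), Or.inr (by simp [esrc, etgt, h1, h2])⟩

theorem exists_chain {S : Set (ℤ × ℤ)} {p q : ℤ × ℤ} (h : Jn gadj S p q) :
    ∃ P : List GEdge, (∀ e ∈ P, esrc e ∈ S ∧ etgt e ∈ S) ∧ IsChain P p q := by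
  refine h.induct (P := fun z => ∃ P : List GEdge, (∀ e ∈ P, esrc e ∈ S ∧ etgt e ∈ S) ∧
    IsChain P p z) ⟨[], by simp, ?_⟩ ?_
  · intro φ
    simp [CharTwo.add_self_eq_zero]
  · rintro a b ha hab hb ⟨P, hP1, hP2⟩
    obtain ⟨e, he⟩ := exists_edge hab
    refine ⟨e :: P, ?_, ?_⟩
    · intro f hf
      rcases List.mem_cons.mp hf with rfl | hf
      · rcases he with ⟨h1, h2⟩ | ⟨h1, h2⟩
        · rw [h1, h2]; exact ⟨ha.right_mem, hb⟩
        · rw [h1, h2]; exact ⟨hb, ha.right_mem⟩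
      · exact hP1 f hf
    · intro φ
      rw [List.map_cons, List.sum_cons, hP2 φ]
      have key : φ (esrc e) + φ (etgt e) = φ a + φ b := by
        rcases he with ⟨h1, h2⟩ | ⟨h1, h2⟩
        · rw [h1, h2]
        · rw [h1, h2, add_comm]
      rw [key]
      have : φ a + φ a = 0 := CharTwo.add_self_eq_zero _
      linear_combination this

theorem K33 (x y : Fin 3 → ℤ × ℤ) (K : Fin 3 → Fin 3 → Set (ℤ × ℤ))
    (hJ : ∀ r t, Jn gadj (K r t) (x r) (y t))
    (hd : ∀ r r' t t', r ≠ r' → t ≠ t' → Disjoint (K r t) (K r' t')) : False := by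
  choose W hW1 hW2 using fun r t => exists_chain (hJ r t)
  have hyne : ∀ t t', t ≠ t' → y t ≠ y t' := fun t t' ht =>
    Set.disjoint_iff_forall_ne.mp (hd 0 1 t t' (by decide) ht) (hJ 0 t).right_mem (hJ 1 t').right_mem
  have hz : ∀ r r' t t', r ≠ r' → t ≠ t' →
      GG (W r t) (x r') + GG (W r t) (y t') + (TT (W r' t') (x r) + TT (W r' t') (y t)) = 0 := by
    intro r r' t t' hr ht
    rw [← BB_eq (hW2 r t) (hW2 r' t')]
    exact BB_zero (hd r r' t t' hr ht) (hW1 r t) (hW1 r' t')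
  have hs : ∀ t t', t ≠ t' →
      GG (W 1 t) (x 1) + GG (W 1 t) (y t') + (TT (W 1 t') (x 1) + TT (W 1 t') (y t)) +
      (GG (W 1 t') (x 1) + GG (W 1 t') (y t) + (TT (W 1 t) (x 1) + TT (W 1 t) (y t'))) =
      1 + ind (x 1 = y t') + (ind (x 1 = y t) + 0) := by
    intro t t' ht
    rw [← BB_eq (hW2 1 t) (hW2 1 t'), ← BB_eq (hW2 1 t') (hW2 1 t), BB_symm (hW2 1 t) (hW2 1 t'),
      ind_true rfl, ind_false (hyne t t' ht), eq_comm (a := y t) (b := x 1)]
  have h2 : (2 : ZMod 2) = 0 := rfl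
  have a1 := hz 0 1 0 1 (by decide) (by decide)
  have a2 := hz 0 1 0 2 (by decide) (by decide)
  have a3 := hz 0 1 1 0 (by decide) (by decide)
  have a4 := hz 0 1 1 2 (by decide) (by decide)
  have a5 := hz 0 1 2 0 (by decide) (by decide)
  have a6 := hz 0 1 2 1 (by decide) (by decide)
  have b1 := hz 0 2 0 1 (by decide) (by decide)
  have b2 := hz 0 2 0 2 (by decide) (by decide)
  have b3 := hz 0 2 1 0 (by decide) (by decide)
  have b4 := hz 0 2 1 2 (by decide) (by decide)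
  have b5 := hz 0 2 2 0 (by decide) (by decide)
  have b6 := hz 0 2 2 1 (by decide) (by decide)
  have c1 := hz 1 2 0 1 (by decide) (by decide)
  have c2 := hz 1 2 0 2 (by decide) (by decide)
  have c3 := hz 1 2 1 0 (by decide) (by decide)
  have c4 := hz 1 2 1 2 (by decide) (by decide)
  have c5 := hz 1 2 2 0 (by decide) (by decide)
  have c6 := hz 1 2 2 1 (by decide) (by decide)
  have s1 := hs 0 1 (by decide)
  have s2 := hs 0 2 (by decide)
  have s3 := hs 1 2 (by decide)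
  have key : (1 : ZMod 2) = 0 := by
    have tot := congrArg₂ (· + ·) (congrArg₂ (· + ·) (congrArg₂ (· + ·) (congrArg₂ (· + ·) a1 a2)
      (congrArg₂ (· + ·) a3 a4)) (congrArg₂ (· + ·) (congrArg₂ (· + ·) a5 a6)
      (congrArg₂ (· + ·) b1 b2))) (congrArg₂ (· + ·) (congrArg₂ (· + ·) (congrArg₂ (· + ·) b3 b4)
      (congrArg₂ (· + ·) b5 b6)) (congrArg₂ (· + ·) (congrArg₂ (· + ·) c1 c2)
      (congrArg₂ (· + ·) c3 c4)))
    have tot2 := congrArg₂ (· + ·) (congrArg₂ (· + ·) (congrArg₂ (· + ·) c5 c6) tot)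
      (congrArg₂ (· + ·) (congrArg₂ (· + ·) s1 s2) s3)
    ring_nf at tot2
    reduce_mod_char at tot2
    exact tot2.symm
  exact absurd key (by decide)

end Pool.Agent.H.MP_91129c_co
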