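import Pool.Agent.H.MP_91129c_co.K33

/-!
Two rounds of breadth-first layering for region intersection graphs.
-/

namespace Pool.Agent.H.MP_91129c_co

section Wn

variable {V : Type*}

/-- `Wn r n p q`: `q` is reachable from `p` in at most `n` steps of `r`. -/
def Wn (r : V → V → Prop) : ℕ → V → V → Prop
  | 0, p, q => p = q
  | n + 1, p, q => ∃ z, Wn r n p z ∧ (z = q ∨ r z q)

variable {r r' : V → V → Prop} {p q s : V} {m n : ℕ}

theorem Wn.refl (n : ℕ) (p : V) : Wn r n p p := by
  induction n with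
  | zero => rfl
  | succ n ih => exact ⟨p, ih, Or.inl rfl⟩

theorem Wn.succ (h : Wn r n p q) : Wn r (n + 1) p q := ⟨q, h, Or.inl rfl⟩

theorem Wn.mono (h : Wn r m p q) (hmn : m ≤ n) : Wn r n p q := by
  induction hmn with
  | refl => exact h
  | step _ ih => exact ih.succ

theorem Wn.trans (h1 : Wn r m p q) (h2 : Wn r n q s) : Wn r (m + n) p s := by
  induction n generalizing s with
  | zero => cases h2; exact h1
  | succ n ih =>
    obtain ⟨z, hz, h⟩ := h2
    exact ⟨z, ih hz, h⟩

theorem Wn.one (h : r p q) : Wn r 1 p q := ⟨p, rfl, Or.inr h⟩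

theorem Wn.symm (hr : ∀ a b, r a b → r b a) (h : Wn r n p q) : Wn r n q p := by
  induction n generalizing q with
  | zero => cases h; rfl
  | succ n ih =>
    obtain ⟨z, hz, h⟩ := h
    have h1 : Wn r 1 q z := by
      rcases h with rfl | h
      · exact Wn.refl 1 z
      · exact Wn.one (hr _ _ h)
    exact (h1.trans (ih hz)).mono (by omega)

theorem Wn.rel_mono (hr : ∀ a b, r a b → r' a b) (h : Wn r n p q) : Wn r' n p q := by
  induction n generalizing q with
  | zero => exact h
  | succ n ih =>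
    obtain ⟨z, hz, h⟩ := h
    exact ⟨z, ih hz, h.imp_right (hr _ _)⟩

theorem Wn.split (h : Wn r (m + n) p q) : ∃ z, Wn r m p z ∧ Wn r n z q := by
  induction n generalizing q with
  | zero => exact ⟨q, h, rfl⟩
  | succ n ih =>
    obtain ⟨z, hz, h⟩ := h
    obtain ⟨w, hw1, hw2⟩ := ih hz
    exact ⟨w, hw1, z, hw2, h⟩

/-- a representative of the class of `p` -/
noncomputable def root (r : V → V → Prop) (p : V) : V := (Quot.mk r p).out

theorem root_eq (h : r p q) : root r p = root r q := by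
  unfold root; rw [Quot.sound h]

theorem root_eq_of_wn (h : Wn r n p q) : root r p = root r q := by
  induction n generalizing q with
  | zero => cases h; rfl
  | succ n ih =>
    obtain ⟨z, hz, h⟩ := h
    rw [ih hz]
    rcases h with rfl | h
    · rfl
    · exact root_eq h

theorem wn_of_eqvGen (hr : ∀ a b, r a b → r b a) (h : Relation.EqvGen r p q) :
    ∃ n, Wn r n p q := by
  induction h with
  | rel x y h => exact ⟨1, Wn.one h⟩
  | refl x => exact ⟨0, rfl⟩
  | symm x y _ ih => obtain ⟨n, hn⟩ := ih; exact ⟨n, hn.symm hr⟩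
  | trans x y z _ _ ih1 ih2 =>
    obtain ⟨n, hn⟩ := ih1
    obtain ⟨m, hm⟩ := ih2
    exact ⟨n + m, hn.trans hm⟩

theorem exists_wn_root (hr : ∀ a b, r a b → r b a) (p : V) : ∃ n, Wn r n (root r p) p := by
  apply wn_of_eqvGen hr
  apply Quot.eqvGen_exact
  exact Quot.out_eq _

/-- distance from the root of the class -/
noncomputable def lam (r : V → V → Prop) (p : V) : ℕ := sInf {n | Wn r n (root r p) p}

theorem lam_spec (hr : ∀ a b, r a b → r b a) (p : V) : Wn r (lam r p) (root r p) p :=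
  Nat.sInf_mem (s := {n | Wn r n (root r p) p}) (exists_wn_root hr p)

theorem lam_le (h : Wn r n (root r p) p) : lam r p ≤ n :=
  Nat.sInf_le (s := {n | Wn r n (root r p) p}) h

theorem lam_wn (hr : ∀ a b, r a b → r b a) (h : Wn r n p q) : lam r q ≤ lam r p + n := by
  apply lam_le
  rw [← root_eq_of_wn h]
  exact (lam_spec hr p).trans h

theorem lam_step (hr : ∀ a b, r a b → r b a) (h : r p q) : lam r q ≤ lam r p + 1 :=
  lam_wn hr (Wn.one h)

/-- predecessor on a geodesic from the root -/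
theorem exists_pred (hr : ∀ a b, r a b → r b a) (h : lam r p = n + 1) :
    ∃ z, lam r z = n ∧ root r z = root r p ∧ r z p := by
  have h1 := lam_spec hr p
  rw [h] at h1
  obtain ⟨z, hz, h2⟩ := h1
  rcases h2 with rfl | h2
  · have := lam_le hz
    omega
  · have h3 : root r z = root r p := root_eq h2
    refine ⟨z, ?_, h3, h2⟩
    have h4 : lam r z ≤ n := lam_le (by rw [h3]; exact hz)
    have h5 := lam_step hr h2
    omega

/-- a point at level `m` on a geodesic from the root to `p` -/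
theorem exists_level (hr : ∀ a b, r a b → r b a) (hm : m ≤ lam r p) :
    ∃ c, lam r c = m ∧ root r c = root r p ∧ Wn r (lam r p - m) c p := by
  obtain ⟨k, hk⟩ := Nat.exists_eq_add_of_le hm
  induction k generalizing p with
  | zero => exact ⟨p, by omega, rfl, Wn.refl _ _⟩
  | succ k ih =>
    obtain ⟨z, hz1, hz2, hz3⟩ := exists_pred (n := m + k) hr (by omega : lam r p = m + k + 1)
    obtain ⟨c, hc1, hc2, hc3⟩ := ih (p := z) (by omega) (by omega)
    exact ⟨c, hc1, hc2.trans hz2, (hc3.trans (Wn.one hz3)).mono (by omega)⟩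

end Wn

section Layer

variable {V : Type*} {ι : Type*} {adj : V → V → Prop} {R : ι → Set V}

/-- one hop: joined inside one region, within `A` -/
def hop (adj : V → V → Prop) (R : ι → Set V) (A : Set V) (p q : V) : Prop :=
  ∃ i, Jn adj (R i ∩ A) p q

theorem hop_symm (hadj : ∀ a b, adj a b → adj b a) (A : Set V) (p q : V)
    (h : hop adj R A p q) : hop adj R A q p := by
  obtain ⟨i, hi⟩ := h
  exact ⟨i, hi.symm hadj⟩

theorem hop_mono {A B : Set V} (hAB : A ⊆ B) (p q : V)
    (h : hop adj R A p q) : hop adj R B p q := by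
  obtain ⟨i, hi⟩ := h
  exact ⟨i, hi.mono (Set.inter_subset_inter_right _ hAB)⟩

/-- geodesic thickening from the root to `c` -/
theorem geoA (hadj : ∀ a b, adj a b → adj b a) (A : Set V) (N : ℕ) (c : V)
    (hc : lam (hop adj R A) c = N) (hcA : c ∈ A) :
    Jn adj {z | z ∈ A ∧ lam (hop adj R A) z ≤ N ∧
      ∃ d, Wn (hop adj R A) d z c ∧ d + lam (hop adj R A) z ≤ N + 1}
      (root (hop adj R A) c) c := by
  have hs := hop_symm (R := R) hadj A
  induction N generalizing c with
  | zero =>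
    have h1 := lam_spec hs c
    rw [hc] at h1
    have h2 : root (hop adj R A) c = c := h1
    rw [h2]
    exact Jn.refl ⟨hcA, by omega, 0, rfl, by omega⟩
  | succ N ih =>
    obtain ⟨c', h1, h2, h3⟩ := exists_pred hs hc
    obtain ⟨i, hi⟩ := h3
    have ih' := ih c' h1 hi.left_mem.2
    rw [h2] at ih'
    refine (ih'.mono ?_).trans ((hi.comp).mono ?_)
    · rintro z ⟨hz1, hz2, d, hd1, hd2⟩
      exact ⟨hz1, by omega, d + 1, hd1.trans (Wn.one ⟨i, hi⟩), by omega⟩
    · intro z hz
      have hz' : Jn adj (R i ∩ A) c' z := hz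
      have h4 := lam_step hs (p := c') (q := z) ⟨i, hz'⟩
      exact ⟨hz'.right_mem.2, by omega, 1, Wn.one ⟨i, (hz'.symm hadj).trans hi⟩, by omega⟩

/-- geodesic thickening from `c` outwards to `b` -/
theorem geoB (hadj : ∀ a b, adj a b → adj b a) (A : Set V) (m : ℕ) (c b : V)
    (hcb : Wn (hop adj R A) m c b) (hl : lam (hop adj R A) b = lam (hop adj R A) c + m)
    (hcA : c ∈ A) :
    Jn adj {z | z ∈ A ∧ lam (hop adj R A) c ≤ lam (hop adj R A) z ∧
      ∃ d, Wn (hop adj R A) d z c ∧ d + lam (hop adj R A) c ≤ lam (hop adj R A) z + 1}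
      c b := by
  have hs := hop_symm (R := R) hadj A
  induction m generalizing b with
  | zero =>
    cases hcb
    exact Jn.refl ⟨hcA, by omega, 0, rfl, by omega⟩
  | succ m ih =>
    obtain ⟨b', hb1, hb2⟩ := hcb
    have h0 := lam_wn hs hb1
    rcases hb2 with rfl | hb2
    · omega
    · have h1 := lam_step hs hb2
      obtain ⟨i, hi⟩ := hb2
      have ih' := ih b' hb1 (by omega)
      refine ih'.trans ((hi.comp).mono ?_)
      intro z hz
      have hz' : Jn adj (R i ∩ A) b' z := hz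
      have h4 := lam_step hs (p := z) (q := b) ⟨i, (hz'.symm hadj).trans hi⟩
      exact ⟨hz'.right_mem.2, by omega, m + 1,
        (hb1.trans (Wn.one ⟨i, hz'⟩)).symm hs, by omega⟩

/-- the slab `n` -/
def slab (adj : V → V → Prop) (R : ι → Set V) (n : ℕ) : Set V :=
  {z | lam (hop adj R Set.univ) z = n ∨ lam (hop adj R Set.univ) z = n + 1}

theorem geoC1 (hadj : ∀ a b, adj a b → adj b a) (n : ℕ) (hn : 1 ≤ n) (z : V)
    (hz : lam (hop adj R Set.univ) z = n) :
    ∃ u, lam (hop adj R Set.univ) u < n ∧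
      root (hop adj R Set.univ) u = root (hop adj R Set.univ) z ∧
      Jn adj ({w | lam (hop adj R Set.univ) w < n} ∪
        {w | w ∈ slab adj R n ∧ Wn (hop adj R (slab adj R n)) 1 w z}) z u := by
  have hs := hop_symm (R := R) hadj Set.univ
  have hs2 := hop_symm (R := R) hadj (slab adj R n)
  obtain ⟨n, rfl⟩ : ∃ k, n = k + 1 := ⟨n - 1, by omega⟩
  obtain ⟨z', h1, h2, i, hi⟩ := exists_pred hs hz
  have hi' : Jn adj (R i ∩ Set.univ) z z' := hi.symm hadj
  have key : (∃ u, lam (hop adj R Set.univ) u < n + 1 ∧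
      root (hop adj R Set.univ) u = root (hop adj R Set.univ) z ∧
      Jn adj ({w | lam (hop adj R Set.univ) w < n + 1} ∪
        {w | w ∈ slab adj R (n + 1) ∧ Wn (hop adj R (slab adj R (n + 1))) 1 w z}) z u) ∨
      Jn adj (R i ∩ slab adj R (n + 1)) z z' := by
    refine hi'.induct (P := fun w => (∃ u, lam (hop adj R Set.univ) u < n + 1 ∧
      root (hop adj R Set.univ) u = root (hop adj R Set.univ) z ∧
      Jn adj ({w | lam (hop adj R Set.univ) w < n + 1} ∪
        {w | w ∈ slab adj R (n + 1) ∧ Wn (hop adj R (slab adj R (n + 1))) 1 w z}) z u) ∨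
      Jn adj (R i ∩ slab adj R (n + 1)) z w) ?_ ?_
    · exact Or.inr (Jn.refl ⟨hi'.left_mem.1, Or.inl hz⟩)
    · intro w w' hw hww' hw' ihw
      rcases ihw with h | h
      · exact Or.inl h
      · have h5 : Jn adj (R i ∩ Set.univ) z w' := hw.tail hww' hw'
        have h3 : hop adj R Set.univ z' w' := ⟨i, hi.trans h5⟩
        have h4 := lam_step hs h3
        by_cases hlt : lam (hop adj R Set.univ) w' < n + 1
        · refine Or.inl ⟨w', hlt, (root_eq ⟨i, h5⟩).symm, ?_⟩
          refine Jn.tail (q := w) (h.comp.mono ?_) hww' (Or.inl hlt)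
          intro v hv
          have hv' : Jn adj (R i ∩ slab adj R (n + 1)) z v := hv
          exact Or.inr ⟨hv'.right_mem.2, Wn.one ⟨i, hv'.symm hadj⟩⟩
        · exact Or.inr (h.tail hww' ⟨hw'.1, Or.inl (by omega)⟩)
  rcases key with h | h
  · exact h
  · rcases h.right_mem.2 with h3 | h3 <;> omega

theorem geoC (hadj : ∀ a b, adj a b → adj b a) (n : ℕ) (hn : 1 ≤ n) (z : V)
    (hz : z ∈ slab adj R n) :
    ∃ u, lam (hop adj R Set.univ) u < n ∧
      root (hop adj R Set.univ) u = root (hop adj R Set.univ) z ∧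
      Jn adj ({w | lam (hop adj R Set.univ) w < n} ∪
        {w | w ∈ slab adj R n ∧ Wn (hop adj R (slab adj R n)) 2 w z}) z u := by
  have hs := hop_symm (R := R) hadj Set.univ
  have hs2 := hop_symm (R := R) hadj (slab adj R n)
  rcases hz with hz | hz
  · obtain ⟨u, h1, h2, h3⟩ := geoC1 hadj n hn z hz
    refine ⟨u, h1, h2, h3.mono (Set.union_subset_union_right _ ?_)⟩
    rintro w ⟨hw1, hw2⟩
    exact ⟨hw1, hw2.mono (by omega)⟩
  · obtain ⟨z', h1, h2, i, hi⟩ := exists_pred hs hz
    obtain ⟨u, h3, h4, h5⟩ := geoC1 hadj n hn z' h1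
    have hi2 : Jn adj (R i ∩ slab adj R n) z' z := by
      refine hi.comp.mono ?_
      intro w hw
      have hw' : Jn adj (R i ∩ Set.univ) z' w := hw
      have e1 := lam_step hs (p := z') (q := w) ⟨i, hw'⟩
      have e2 := lam_step hs (p := w) (q := z) ⟨i, (hw'.symm hadj).trans hi⟩
      refine ⟨hw'.right_mem.1, ?_⟩
      have : lam (hop adj R Set.univ) w = n ∨ lam (hop adj R Set.univ) w = n + 1 := by omega
      exact this
    refine ⟨u, h3, h4.trans h2, ?_⟩
    refine Jn.trans (q := z') ((hi2.symm hadj).comp.mono ?_) (h5.mono ?_)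
    · intro w hw
      have hw' : Jn adj (R i ∩ slab adj R n) z w := hw
      exact Or.inr ⟨hw'.right_mem.2, (Wn.one ⟨i, hw'.symm hadj⟩).mono (by omega)⟩
    · refine Set.union_subset_union_right _ ?_
      rintro w ⟨hw1, hw2⟩
      exact ⟨hw1, hw2.trans (Wn.one ⟨i, hi2⟩)⟩

/-- no K33 formed by walks, independent ones disjoint -/
def K33Free (adj : V → V → Prop) : Prop :=
  ∀ (x y : Fin 3 → V) (K : Fin 3 → Fin 3 → Set V), (∀ r t, Jn adj (K r t) (x r) (y t)) →
    (∀ r r' t t', r ≠ r' → t ≠ t' → Disjoint (K r t) (K r' t')) → False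

theorem three_far (hadj : ∀ a b, adj a b → adj b a) (hK : K33Free adj) (n : ℕ) (hn : 1 ≤ n)
    (j : ℕ) (a : V) (b : Fin 3 → V)
    (hb2 : ∀ t, root (hop adj R (slab adj R n)) (b t) = a)
    (hb3 : ∀ t, lam (hop adj R (slab adj R n)) (b t) = j ∨
      lam (hop adj R (slab adj R n)) (b t) = j + 1)
    (hb4 : ∀ t, Jn adj {z | z ∈ slab adj R n ∧ j ≤ lam (hop adj R (slab adj R n)) z} (b 0) (b t))
    (hfar : ∀ s t, s ≠ t → ¬ Wn (hop adj R Set.univ) 13 (b s) (b t)) : False := by
  set A := slab adj R n with hA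
  set r1 := hop adj R Set.univ with hr1
  set r2 := hop adj R A with hr2
  have hs1 : ∀ p q, r1 p q → r1 q p := hop_symm (R := R) hadj Set.univ
  have hs2 : ∀ p q, r2 p q → r2 q p := hop_symm (R := R) hadj A
  have h21 : ∀ {m : ℕ} {p q : V}, Wn r2 m p q → Wn r1 m p q := fun h =>
    h.rel_mono (hop_mono (Set.subset_univ A))
  -- j is at least 6
  have hj : 6 ≤ j := by
    by_contra hlt
    have h0 := lam_spec hs2 (b 0)
    have h1 := lam_spec hs2 (b 1)
    rw [hb2 0] at h0
    rw [hb2 1] at h1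
    apply hfar 0 1 (by decide)
    refine (h21 ((h0.symm hs2).trans h1)).mono ?_
    rcases hb3 0 with e0 | e0 <;> rcases hb3 1 with e1 | e1 <;> omega
  obtain ⟨θ, rfl⟩ : ∃ θ, j = θ + 3 := ⟨j - 3, by omega⟩
  -- the points c t
  have hc : ∀ t, ∃ c, lam r2 c = θ ∧ root r2 c = a ∧ Wn r2 (lam r2 (b t) - θ) c (b t) := by
    intro t
    have h : θ ≤ lam r2 (b t) := by rcases hb3 t with e | e <;> omega
    obtain ⟨c, h1, h2, h3⟩ := exists_level hs2 h
    exact ⟨c, h1, h2.trans (hb2 t), h3⟩
  choose c hc1 hc2 hc3 using hc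
  have hcb : ∀ t, Wn r1 4 (c t) (b t) := by
    intro t
    refine (h21 (hc3 t)).mono ?_
    rcases hb3 t with e | e <;> omega
  have hfarc : ∀ s t, s ≠ t → ¬ Wn r1 5 (c s) (c t) := by
    intro s t hst h
    apply hfar s t hst
    exact ((((hcb s).symm hs1).trans h).trans (hcb t)).mono (by omega)
  have hcA : ∀ t, c t ∈ A := by
    intro t
    obtain ⟨z, _, _, i, hi⟩ := exists_pred (n := θ - 1) hs2 (by rw [hc1 t]; omega : lam r2 (c t) = θ - 1 + 1)
    exact hi.right_mem.2
  -- common r1-root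
  have hroot1 : ∀ t, root r1 (c t) = root r1 (b 0) := by
    intro t
    have h1 : root r1 (c t) = root r1 (b t) := root_eq_of_wn (hcb t)
    have h2 : root r1 a = root r1 (b t) := by
      have := lam_spec hs2 (b t)
      rw [hb2 t] at this
      exact root_eq_of_wn (h21 this)
    have h3 : root r1 a = root r1 (b 0) := by
      have := lam_spec hs2 (b 0)
      rw [hb2 0] at this
      exact root_eq_of_wn (h21 this)
    rw [h1, ← h2, h3]
  -- the sets
  let K0 : Fin 3 → Set V := fun t => {z | z ∈ A ∧ lam r2 z ≤ θ ∧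
      ∃ d, Wn r2 d z (c t) ∧ d + lam r2 z ≤ θ + 1}
  let K1 : Fin 3 → Set V := fun t => {z | z ∈ A ∧ θ + 3 ≤ lam r2 z} ∪
      {z | z ∈ A ∧ lam r2 (c t) ≤ lam r2 z ∧
      ∃ d, Wn r2 d z (c t) ∧ d + lam r2 (c t) ≤ lam r2 z + 1}
  let K2 : Fin 3 → Set V := fun t => {z | lam r1 z < n} ∪ {z | z ∈ A ∧ Wn r2 2 z (c t)}
  have hK0 : ∀ t, Jn adj (K0 t) a (c t) := by
    intro t
    have := geoA (R := R) hadj A θ (c t) (hc1 t) (hcA t)
    rw [← hr2, hc2 t] at this
    exact this
  have hK1 : ∀ t, Jn adj (K1 t) (b 0) (c t) := by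
    intro t
    have h1 := geoB (R := R) hadj A (lam r2 (b t) - θ) (c t) (b t) (hc3 t)
      (by rw [← hr2, hc1 t]; rcases hb3 t with e | e <;> omega) (hcA t)
    refine Jn.trans (q := b t) ((hb4 t).mono Set.subset_union_left) ?_
    exact (h1.symm hadj).mono Set.subset_union_right
  have hK2 : ∀ t, Jn adj (K2 t) (root r1 (b 0)) (c t) := by
    intro t
    obtain ⟨u, hu1, hu2, hu3⟩ := geoC (R := R) hadj n hn (c t) (hcA t)
    have h1 := geoA (R := R) hadj Set.univ (lam r1 u) u rfl (Set.mem_univ u)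
    rw [← hr1, hu2, hroot1 t] at h1
    refine Jn.trans (q := u) (h1.mono ?_) (hu3.symm hadj)
    rintro z ⟨-, hz, -⟩
    exact Or.inl (lt_of_le_of_lt hz hu1)
  -- disjointness
  have hnA : ∀ z, lam r1 z < n → z ∉ A := by
    intro z hz hzA
    have hzA' : lam r1 z = n ∨ lam r1 z = n + 1 := hzA
    rcases hzA' with h | h <;> omega
  have d01 : ∀ s t, s ≠ t → Disjoint (K0 s) (K1 t) := by
    intro s t hst
    rw [Set.disjoint_left]
    rintro z ⟨hz1, hz2, d, hd1, hd2⟩ hz'
    rcases hz' with ⟨_, hz3⟩ | ⟨_, hz3, d', hd3, hd4⟩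
    · omega
    · rw [hc1 t] at hz3 hd4
      apply hfarc s t hst
      refine (h21 ((hd1.symm hs2).trans hd3)).mono ?_
      omega
  have d02 : ∀ s t, s ≠ t → Disjoint (K0 s) (K2 t) := by
    intro s t hst
    rw [Set.disjoint_left]
    rintro z ⟨hz1, hz2, d, hd1, hd2⟩ hz'
    rcases hz' with hz3 | ⟨_, hz3⟩
    · exact hnA z hz3 hz1
    · have h1 := lam_wn hs2 hz3
      rw [hc1 t] at h1
      apply hfarc s t hst
      refine (h21 ((hd1.symm hs2).trans hz3)).mono ?_
      omega
  have d12 : ∀ s t, s ≠ t → Disjoint (K1 s) (K2 t) := by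
    intro s t hst
    rw [Set.disjoint_left]
    rintro z hz hz'
    have hzA : z ∈ A := by rcases hz with h | h; exact h.1; exact h.1
    rcases hz' with hz3 | ⟨_, hz3⟩
    · exact hnA z hz3 hzA
    · have h1 := lam_wn hs2 (hz3.symm hs2)
      rw [hc1 t] at h1
      rcases hz with ⟨_, hz4⟩ | ⟨_, hz4, d, hd1, hd2⟩
      · omega
      · rw [hc1 s] at hd2 hz4
        apply hfarc s t hst
        refine (h21 ((hd1.symm hs2).trans hz3)).mono ?_
        omega
  refine hK ![a, b 0, root r1 (b 0)] c ![K0, K1, K2] ?_ ?_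
  · intro r t
    fin_cases r
    · exact hK0 t
    · exact hK1 t
    · exact hK2 t
  · intro r r' t t' hr ht
    fin_cases r <;> fin_cases r' <;> first | exact absurd rfl hr | skip
    · exact d01 t t' ht
    · exact d02 t t' ht
    · exact (d01 t' t ht.symm).symm
    · exact d12 t t' ht
    · exact (d02 t' t ht.symm).symm
    · exact (d12 t' t ht.symm).symm

noncomputable def lev1 (adj : V → V → Prop) (R : ι → Set V) (i : ι) : ℕ :=
  sInf (lam (hop adj R Set.univ) '' R i)

noncomputable def lev2 (adj : V → V → Prop) (R : ι → Set V) (i : ι) : ℕ :=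
  sInf (lam (hop adj R (slab adj R (lev1 adj R i))) '' R i)

theorem lev_range (hadj : ∀ a b, adj a b → adj b a) (hne : ∀ i, (R i).Nonempty)
    (hconn : ∀ i, ∀ p ∈ R i, ∀ q ∈ R i, Jn adj (R i) p q) (A : Set V) (i : ι) (hA : R i ⊆ A)
    (p : V) (hp : p ∈ R i) :
    sInf (lam (hop adj R A) '' R i) ≤ lam (hop adj R A) p ∧
      lam (hop adj R A) p ≤ sInf (lam (hop adj R A) '' R i) + 1 := by
  have hs := hop_symm (R := R) hadj A
  refine ⟨Nat.sInf_le ⟨p, hp, rfl⟩, ?_⟩
  obtain ⟨q, hq, hq2⟩ := Nat.sInf_mem ((hne i).image (lam (hop adj R A)))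
  rw [← hq2]
  refine lam_step hs ⟨i, (hconn i q hq p hp).mono ?_⟩
  intro z hz
  exact ⟨hz, hA hz⟩

theorem lev1_range (hadj : ∀ a b, adj a b → adj b a) (hne : ∀ i, (R i).Nonempty)
    (hconn : ∀ i, ∀ p ∈ R i, ∀ q ∈ R i, Jn adj (R i) p q) (i : ι) (p : V) (hp : p ∈ R i) :
    lev1 adj R i ≤ lam (hop adj R Set.univ) p ∧
      lam (hop adj R Set.univ) p ≤ lev1 adj R i + 1 :=
  lev_range hadj hne hconn Set.univ i (Set.subset_univ _) p hp

theorem subset_slab (hadj : ∀ a b, adj a b → adj b a) (hne : ∀ i, (R i).Nonempty)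
    (hconn : ∀ i, ∀ p ∈ R i, ∀ q ∈ R i, Jn adj (R i) p q) (i : ι) :
    R i ⊆ slab adj R (lev1 adj R i) := by
  intro p hp
  have := lev1_range hadj hne hconn i p hp
  have h2 : lam (hop adj R Set.univ) p = lev1 adj R i ∨
    lam (hop adj R Set.univ) p = lev1 adj R i + 1 := by omega
  exact h2

theorem lev2_range (hadj : ∀ a b, adj a b → adj b a) (hne : ∀ i, (R i).Nonempty)
    (hconn : ∀ i, ∀ p ∈ R i, ∀ q ∈ R i, Jn adj (R i) p q) (i : ι) (p : V) (hp : p ∈ R i) :
    lev2 adj R i ≤ lam (hop adj R (slab adj R (lev1 adj R i))) p ∧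
      lam (hop adj R (slab adj R (lev1 adj R i))) p ≤ lev2 adj R i + 1 :=
  lev_range hadj hne hconn _ i (subset_slab hadj hne hconn i) p hp

noncomputable def lcol (adj : V → V → Prop) (R : ι → Set V) (i : ι) : Bool × Bool :=
  (decide (lev1 adj R i % 2 = 0), decide (lev2 adj R i % 2 = 0))

theorem lcol_step (hadj : ∀ a b, adj a b → adj b a) (hne : ∀ i, (R i).Nonempty)
    (hconn : ∀ i, ∀ p ∈ R i, ∀ q ∈ R i, Jn adj (R i) p q) (i i' : ι)
    (hi : (R i ∩ R i').Nonempty) (hc : lcol adj R i = lcol adj R i') :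
    lev1 adj R i = lev1 adj R i' ∧ lev2 adj R i = lev2 adj R i' := by
  obtain ⟨z, hz1, hz2⟩ := hi
  simp only [lcol, Prod.mk.injEq, decide_eq_decide] at hc
  obtain ⟨c1, c2⟩ := hc
  have a1 := lev1_range hadj hne hconn i z hz1
  have a2 := lev1_range hadj hne hconn i' z hz2
  have e1 : lev1 adj R i = lev1 adj R i' := by omega
  have b1 := lev2_range hadj hne hconn i z hz1
  have b2 := lev2_range hadj hne hconn i' z hz2
  rw [← e1] at b2
  refine ⟨e1, ?_⟩
  omega

theorem layering (hadj : ∀ a b, adj a b → adj b a) (hK : K33Free adj)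
    (hne : ∀ i, (R i).Nonempty) (hconn : ∀ i, ∀ p ∈ R i, ∀ q ∈ R i, Jn adj (R i) p q)
    (i i' : ι)
    (hii : Relation.ReflTransGen
      (fun a b => (R a ∩ R b).Nonempty ∧ lcol adj R a = lcol adj R b) i i')
    (p q : V) (hp : p ∈ R i) (hq : q ∈ R i') : Wn (hop adj R Set.univ) 27 p q := by
  have hs1 := hop_symm (R := R) hadj Set.univ
  have hs2 := hop_symm (R := R) hadj (slab adj R (lev1 adj R i))
  by_contra hpq
  set n := lev1 adj R i with hn
  set j := lev2 adj R i with hj
  -- good points: same slab, same component, same second level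
  let Good : V → Prop := fun z => z ∈ slab adj R n ∧
    root (hop adj R (slab adj R n)) z = root (hop adj R (slab adj R n)) p ∧
    (lam (hop adj R (slab adj R n)) z = j ∨ lam (hop adj R (slab adj R n)) z = j + 1) ∧
    Jn adj {z | z ∈ slab adj R n ∧ j ≤ lam (hop adj R (slab adj R n)) z} p z
  have hin : ∀ a, lev1 adj R a = n → lev2 adj R a = j → ∀ z ∈ R a,
      z ∈ slab adj R n ∧ (lam (hop adj R (slab adj R n)) z = j ∨
        lam (hop adj R (slab adj R n)) z = j + 1) := by
    intro a ha1 ha2 z hz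
    have h1 := subset_slab hadj hne hconn a hz
    have h2 := lev2_range hadj hne hconn a z hz
    rw [ha1] at h1 h2
    rw [ha2] at h2
    exact ⟨h1, by omega⟩
  have hstep : ∀ a, lev1 adj R a = n → lev2 adj R a = j → ∀ z ∈ R a, Good z → ∀ w ∈ R a,
      Good w := by
    intro a ha1 ha2 z hz hgz w hw
    have h1 := hin a ha1 ha2 w hw
    have hzw := hconn a z hz w hw
    have hzw2 : Jn adj (R a ∩ slab adj R n) z w := by
      refine hzw.mono ?_
      intro v hv
      exact ⟨hv, (hin a ha1 ha2 v hv).1⟩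
    refine ⟨h1.1, ?_, h1.2, ?_⟩
    · rw [← hgz.2.1]
      exact (root_eq ⟨a, hzw2⟩).symm
    · refine hgz.2.2.2.trans (hzw.mono ?_)
      intro v hv
      have := hin a ha1 ha2 v hv
      refine ⟨this.1, ?_⟩
      rcases this.2 with h | h <;> omega
  have hgp : Good p := by
    have h1 := hin i rfl rfl p hp
    refine ⟨h1.1, rfl, h1.2, Jn.refl ⟨h1.1, ?_⟩⟩
    rcases h1.2 with h | h <;> omega
  -- walk along the chain
  have key : lev1 adj R i' = n ∧ lev2 adj R i' = j ∧ (∀ z ∈ R i', Good z) ∧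
      ((∀ z ∈ R i', Wn (hop adj R Set.univ) 13 p z) ∨
        ∃ b1, Good b1 ∧ Wn (hop adj R Set.univ) 14 p b1 ∧
          ¬ Wn (hop adj R Set.univ) 13 p b1) := by
    clear hq hpq
    induction hii with
    | refl =>
      refine ⟨rfl, rfl, fun z hz => hstep i rfl rfl p hp hgp z hz, Or.inl ?_⟩
      intro z hz
      exact (Wn.one ⟨i, (hconn i p hp z hz).mono (by simp)⟩).mono (by omega)
    | tail _ hbc ih =>
      rename_i x y _
      obtain ⟨ih1, ih2, ih3, ih4⟩ := ih
      have h1 := lcol_step hadj hne hconn x y hbc.1 hbc.2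
      obtain ⟨z, hz1, hz2⟩ := hbc.1
      have h3 : lev1 adj R y = n := by rw [← h1.1, ih1]
      have h4 : lev2 adj R y = j := by rw [← h1.2, ih2]
      have h5 : ∀ w ∈ R y, Good w := fun w hw => hstep y h3 h4 z hz2 (ih3 z hz1) w hw
      refine ⟨h3, h4, h5, ?_⟩
      rcases ih4 with h6 | h6
      · by_cases h7 : ∀ w ∈ R y, Wn (hop adj R Set.univ) 13 p w
        · exact Or.inl h7
        · push Not at h7
          obtain ⟨w, hw1, hw2⟩ := h7
          refine Or.inr ⟨w, h5 w hw1, ?_, hw2⟩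
          exact (h6 z hz1).trans (Wn.one ⟨y, (hconn y z hz2 w hw1).mono (by simp)⟩)
      · exact Or.inr h6
  obtain ⟨k1, k2, k3, k4⟩ := key
  rcases k4 with k4 | ⟨b1, hb1, hb2, hb3⟩
  · exact hpq ((k4 q hq).mono (by omega))
  · have hq' := k3 q hq
    rcases Nat.eq_zero_or_pos n with hn0 | hn0
    · -- slab 0: everything is close to the root
      have e1 : root (hop adj R Set.univ) p = root (hop adj R Set.univ) b1 := root_eq_of_wn hb2
      have hcl : ∀ z ∈ slab adj R n, Wn (hop adj R Set.univ) 1 (root (hop adj R Set.univ) z) z := by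
        intro z hz
        refine (lam_spec hs1 z).mono ?_
        have hz' : lam (hop adj R Set.univ) z = n ∨ lam (hop adj R Set.univ) z = n + 1 := hz
        omega
      apply hb3
      have f1 := hcl p hgp.1
      have f2 := hcl b1 hb1.1
      rw [e1] at f1
      exact ((f1.symm hs1).trans f2).mono (by omega)
    · refine three_far (R := R) hadj hK n hn0 j (root (hop adj R (slab adj R n)) p) ![p, b1, q]
        ?_ ?_ ?_ ?_
      · intro t; fin_cases t
        · rfl
        · exact hb1.2.1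
        · exact hq'.2.1
      · intro t; fin_cases t
        · exact hgp.2.2.1
        · exact hb1.2.2.1
        · exact hq'.2.2.1
      · intro t; fin_cases t
        · exact hgp.2.2.2
        · exact hb1.2.2.2
        · exact hq'.2.2.2
      · have g1 : ¬ Wn (hop adj R Set.univ) 13 b1 q := fun h => hpq (hb2.trans h)
        have g2 : ¬ Wn (hop adj R Set.univ) 13 p q := fun h => hpq (h.mono (by omega))
        intro s t hst
        fin_cases s <;> fin_cases t <;> first | exact absurd rfl hst | skip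
        · exact hb3
        · exact g2
        · exact fun h => hb3 (h.symm hs1)
        · exact g1
        · exact fun h => g2 (h.symm hs1)
        · exact fun h => g1 (h.symm hs1)

end Layer

end Pool.Agent.H.MP_91129c_co
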