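import Pool.Agent.H.MP_91129c_co.Digit

/-!
Lower bound: colouring points so that every interval has a unique colour needs many colours.
-/

namespace Pool.Agent.H.MP_91129c_co

theorem interval_cf (χ : ℕ → ℕ) (C : Finset ℕ) (a b : ℕ)
    (hC : ∀ i, a ≤ i → i < b → χ i ∈ C)
    (hcf : ∀ a' b', a ≤ a' → b' ≤ b → a' < b' → ∃ i, a' ≤ i ∧ i < b' ∧
      ∀ j, a' ≤ j → j < b' → j ≠ i → χ j ≠ χ i) : b - a < 2 ^ C.card := by
  induction hn : C.card generalizing C a b with
  | zero =>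
    by_contra hcon
    push Not at hcon
    rw [Finset.card_eq_zero] at hn
    subst hn
    have := hC a le_rfl (by omega)
    simp at this
  | succ n ih =>
    by_cases hab : a < b
    · obtain ⟨i, hi1, hi2, hi3⟩ := hcf a b le_rfl le_rfl hab
      have hiC := hC i hi1 hi2
      have hcard : (C.erase (χ i)).card = n := by
        rw [Finset.card_erase_of_mem hiC, hn]; rfl
      have h1 := ih (C.erase (χ i)) a i (fun j hj1 hj2 => Finset.mem_erase.mpr
        ⟨hi3 j hj1 (by omega) (by omega), hC j hj1 (by omega)⟩)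
        (fun a' b' ha hb hab' => hcf a' b' ha (by omega) hab') hcard
      have h2 := ih (C.erase (χ i)) (i + 1) b (fun j hj1 hj2 => Finset.mem_erase.mpr
        ⟨hi3 j (by omega) hj2 (by omega), hC j (by omega) hj2⟩)
        (fun a' b' ha hb hab' => hcf a' b' (by omega) hb hab') hcard
      rw [pow_succ]
      omega
    · have : 0 < 2 ^ (n + 1) := by positivity
      omega

open Metric

/-- the disc of radius `k + 1` around `(i, 0)` -/
def ldisc (k i : ℕ) : Set Plane := closedBall (!₂[(i : ℝ), 0]) (k + 1)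

theorem mem_ldisc (k i : ℕ) (x y : ℝ) :
    (!₂[x, y] : Plane) ∈ ldisc k i ↔ (x - i) ^ 2 + y ^ 2 ≤ ((k : ℝ) + 1) ^ 2 := by
  unfold ldisc
  rw [mem_closedBall, dist_le_iff _ _ (by positivity)]
  simp

theorem ldisc_inj (k i j : ℕ) (h : ldisc k i = ldisc k j) : i = j := by
  have key : ∀ i j : ℕ, ldisc k i = ldisc k j → (i : ℝ) ≤ j := by
    intro i j h
    have h1 : (!₂[(i : ℝ) + (k + 1), 0] : Plane) ∈ ldisc k i := by
      rw [mem_ldisc]; ring_nf; exact le_rfl
    rw [h, mem_ldisc] at h1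
    by_contra hcon
    push Not at hcon
    have h2 : (0 : ℝ) ≤ k := Nat.cast_nonneg k
    nlinarith
  have h1 := key i j h
  have h2 := key j i h.symm
  exact_mod_cast le_antisymm h1 h2

/-- a point contained in exactly the discs `a, ..., b - 1` -/
theorem exists_point (k a b : ℕ) (hab : a < b) (hb : b ≤ k + 1) :
    ∃ p : Plane, ∀ i, p ∈ ldisc k i ↔ a ≤ i ∧ i < b := by
  have hb' : (b : ℝ) ≤ k + 1 := by exact_mod_cast hb
  have hab' : (a : ℝ) + 1 ≤ b := by exact_mod_cast hab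
  have ha0 : (0 : ℝ) ≤ a := Nat.cast_nonneg a
  have hnn : 0 ≤ ((k : ℝ) + 1) ^ 2 - (((b : ℝ) - 1 - a) / 2) ^ 2 := by nlinarith
  refine ⟨!₂[((a : ℝ) + b - 1) / 2, Real.sqrt (((k : ℝ) + 1) ^ 2 - (((b : ℝ) - 1 - a) / 2) ^ 2)],
    fun i => ?_⟩
  rw [mem_ldisc, Real.sq_sqrt hnn]
  have h1 : (((a : ℝ) + b - 1) / 2 - i) ^ 2 + (((k : ℝ) + 1) ^ 2 - (((b : ℝ) - 1 - a) / 2) ^ 2) ≤
      ((k : ℝ) + 1) ^ 2 ↔ ((a : ℝ) - i) * ((b : ℝ) - 1 - i) ≤ 0 := by
    constructor <;> intro h <;> nlinarith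
  rw [h1]
  constructor
  · intro h
    by_contra hcon
    rw [not_and_or, not_le, not_lt] at hcon
    rcases hcon with h2 | h2
    · have h3 : (i : ℝ) + 1 ≤ a := by exact_mod_cast h2
      nlinarith
    · have h3 : (b : ℝ) ≤ i := by exact_mod_cast h2
      nlinarith
  · rintro ⟨h2, h3⟩
    have h2' : (a : ℝ) ≤ i := by exact_mod_cast h2
    have h3' : (i : ℝ) + 1 ≤ b := by exact_mod_cast h3
    exact mul_nonpos_of_nonpos_of_nonneg (by linarith) (by linarith)

end Pool.Agent.H.MP_91129c_co
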