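import Mathlib

/-!
A geometric graph in the plane in which disjoint edges are strictly separated by lines has at
most `3 n` edges (in general position; then in arbitrary position by perturbation).
-/

namespace Pool.Agent.H.MP_91129c_co

namespace Wedge

/-- real-number core: two segments whose endpoints are separated by a linear functional -/
theorem cross_real (xa ya xb s xc yc xd r xw u v : ℝ) (h1 : xa < xc) (h2 : xc < xw)
    (h3 : xw ≤ xb) (h4 : xw ≤ xd)
    (k1 : u * xa + v * ya < u * xc + v * yc)
    (k2 : u * xa + v * ya < u * xd + v * (yc + r * (xd - xc)))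
    (k3 : u * xb + v * (ya + s * (xb - xa)) < u * xc + v * yc)
    (k4 : u * xb + v * (ya + s * (xb - xa)) < u * xd + v * (yc + r * (xd - xc))) :
    0 < v * (yc - (ya + s * (xc - xa))) ∧
      0 < v * ((yc + r * (xw - xc)) - (ya + s * (xw - xa))) := by
  obtain ⟨m, hm1, hm2, hm3, hm4⟩ : ∃ m, u * xa + v * ya < m ∧
      u * xb + v * (ya + s * (xb - xa)) < m ∧ m ≤ u * xc + v * yc ∧
      m ≤ u * xd + v * (yc + r * (xd - xc)) :=
    ⟨min (u * xc + v * yc) (u * xd + v * (yc + r * (xd - xc))), lt_min k1 k2, lt_min k3 k4,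
      min_le_left _ _, min_le_right _ _⟩
  have hab : ∀ t, xa < t → t ≤ xb → u * t + v * (ya + s * (t - xa)) < m := by
    intro t ht1 ht2
    have hpos : 0 < xb - xa := by linarith
    have e1 : (xb - xa) * (u * t + v * (ya + s * (t - xa))) =
        (xb - t) * (u * xa + v * ya) + (t - xa) * (u * xb + v * (ya + s * (xb - xa))) := by ring
    have e2 : (xb - t) * (u * xa + v * ya) + (t - xa) * (u * xb + v * (ya + s * (xb - xa))) <
        (xb - t) * m + (t - xa) * m := by
      have f1 : (xb - t) * (u * xa + v * ya) ≤ (xb - t) * m :=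
        mul_le_mul_of_nonneg_left hm1.le (by linarith)
      have f2 : (t - xa) * (u * xb + v * (ya + s * (xb - xa))) < (t - xa) * m :=
        mul_lt_mul_of_pos_left hm2 (by linarith)
      linarith
    have e3 : (xb - xa) * (u * t + v * (ya + s * (t - xa))) < (xb - xa) * m := by
      rw [e1]; linarith
    exact lt_of_mul_lt_mul_left e3 hpos.le
  have hcd : ∀ t, xc ≤ t → t ≤ xd → m ≤ u * t + v * (yc + r * (t - xc)) := by
    intro t ht1 ht2
    have hpos : 0 < xd - xc := by linarith
    have e1 : (xd - xc) * (u * t + v * (yc + r * (t - xc))) =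
        (xd - t) * (u * xc + v * yc) + (t - xc) * (u * xd + v * (yc + r * (xd - xc))) := by ring
    have e2 : (xd - t) * m + (t - xc) * m ≤
        (xd - t) * (u * xc + v * yc) + (t - xc) * (u * xd + v * (yc + r * (xd - xc))) := by
      have f1 : (xd - t) * m ≤ (xd - t) * (u * xc + v * yc) :=
        mul_le_mul_of_nonneg_left hm3 (by linarith)
      have f2 : (t - xc) * m ≤ (t - xc) * (u * xd + v * (yc + r * (xd - xc))) :=
        mul_le_mul_of_nonneg_left hm4 (by linarith)
      linarith
    have e3 : (xd - xc) * m ≤ (xd - xc) * (u * t + v * (yc + r * (t - xc))) := by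
      rw [e1]; linarith
    exact le_of_mul_le_mul_left e3 hpos
  have a1 := hab xc h1 (by linarith)
  have a2 := hab xw (by linarith) h3
  have b2 := hcd xw h2.le h4
  constructor
  · nlinarith [hm3]
  · nlinarith

variable {V : Type*} {F : Finset V} {x y : V → ℝ} {adj : V → V → Prop}

/-- slope of the line through `a` and `b` -/
noncomputable def slope (x y : V → ℝ) (a b : V) : ℝ := (y b - y a) / (x b - x a)

theorem slope_spec {a b : V} (h : x a < x b) : y b = y a + slope x y a b * (x b - x a) := by
  have : x b - x a ≠ 0 := by linarith [h] |> fun h' => ne_of_gt h'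
  unfold slope
  rw [div_mul_cancel₀ _ this]
  ring

/-- disjoint edges are strictly separated by a linear functional -/
def Sep (F : Finset V) (x y : V → ℝ) (adj : V → V → Prop) : Prop :=
  ∀ a ∈ F, ∀ b ∈ F, ∀ c ∈ F, ∀ d ∈ F, adj a b → adj c d → a ≠ c → a ≠ d → b ≠ c → b ≠ d →
    ∃ u v : ℝ, u * x a + v * y a < u * x c + v * y c ∧ u * x a + v * y a < u * x d + v * y d ∧
      u * x b + v * y b < u * x c + v * y c ∧ u * x b + v * y b < u * x d + v * y d

theorem no_cross (hsep : Sep F x y adj) {a b c d : V} {xw : ℝ} (ha : a ∈ F) (hb : b ∈ F)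
    (hc : c ∈ F) (hd : d ∈ F) (hab : adj a b) (hcd : adj c d) (h1 : x a < x c) (h2 : x c < xw)
    (h3 : xw ≤ x b) (h4 : xw ≤ x d) (hσ : (0 < y c - (y a + slope x y a b * (x c - x a)) ∧
      (y c + slope x y c d * (xw - x c)) - (y a + slope x y a b * (xw - x a)) < 0) ∨
      (y c - (y a + slope x y a b * (x c - x a)) < 0 ∧
      0 < (y c + slope x y c d * (xw - x c)) - (y a + slope x y a b * (xw - x a)))) : False := by
  have e1 := slope_spec (y := y) (show x a < x b by linarith)
  have e2 := slope_spec (y := y) (show x c < x d by linarith)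
  set s := slope x y a b
  set r := slope x y c d
  by_cases hbd : b = d
  · subst hbd
    rw [e1] at e2
    have key : (y c + r * (x b - x c)) - (y a + s * (x b - x a)) = 0 := by linarith
    rcases hσ with ⟨k1, k2⟩ | ⟨k1, k2⟩
    · have hrs : (r - s) * (xw - x c) < 0 := by nlinarith
      have hrs2 : r - s < 0 := by
        by_contra hcon
        push Not at hcon
        have := mul_nonneg hcon (show 0 ≤ xw - x c by linarith)
        linarith
      have := mul_nonneg (show 0 ≤ -(r - s) by linarith) (show 0 ≤ x b - xw by linarith)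
      nlinarith
    · have hrs : 0 < (r - s) * (xw - x c) := by nlinarith
      have hrs2 : 0 < r - s := by
        by_contra hcon
        push Not at hcon
        have := mul_nonneg (show 0 ≤ -(r - s) by linarith) (show 0 ≤ xw - x c by linarith)
        linarith
      have := mul_nonneg hrs2.le (show 0 ≤ x b - xw by linarith)
      nlinarith
  · have n1 : a ≠ c := by rintro rfl; linarith
    have n2 : a ≠ d := by rintro rfl; linarith
    have n3 : b ≠ c := by rintro rfl; linarith
    obtain ⟨u, v, k1, k2, k3, k4⟩ := hsep a ha b hb c hc d hd hab hcd n1 n2 n3 hbd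
    rw [e1] at k3 k4
    rw [e2] at k2 k4
    obtain ⟨m1, m2⟩ := cross_real (x a) (y a) (x b) s (x c) (y c) (x d) r xw u v h1 h2 h3 h4
      k1 k2 k3 k4
    rcases hσ with ⟨l1, l2⟩ | ⟨l1, l2⟩
    · have hv : 0 < v := (pos_iff_pos_of_mul_pos m1).mpr l1
      have := mul_neg_of_pos_of_neg hv l2
      linarith
    · have hv : 0 < v := (pos_iff_pos_of_mul_pos m2).mpr l2
      have := mul_neg_of_pos_of_neg hv l1
      linarith

/-- general position -/
def Gen (F : Finset V) (x y : V → ℝ) : Prop :=
  (∀ a ∈ F, ∀ b ∈ F, a ≠ b → x a ≠ x b) ∧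
  (∀ a ∈ F, ∀ b ∈ F, ∀ c ∈ F, a ≠ b → a ≠ c → b ≠ c → slope x y a b ≠ slope x y a c)

/-- a right-going edge -/
def RE (F : Finset V) (x : V → ℝ) (adj : V → V → Prop) (a b : V) : Prop :=
  a ∈ F ∧ b ∈ F ∧ adj a b ∧ x a < x b

/-- wedge data: `c` is the next edge above `b` at `a` and `w` is the leftmost vertex of
the closed wedge -/
structure Wd (F : Finset V) (x y : V → ℝ) (adj : V → V → Prop) (a b c w : V) : Prop where
  hab : RE F x adj a b
  hac : RE F x adj a c
  hbc : slope x y a b < slope x y a c
  hnext : ∀ d, RE F x adj a d → slope x y a b < slope x y a d → slope x y a c ≤ slope x y a d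
  hw : w ∈ F
  haw : x a < x w
  hw1 : slope x y a b ≤ slope x y a w
  hw2 : slope x y a w ≤ slope x y a c
  hmin : ∀ z ∈ F, x a < x z → slope x y a b ≤ slope x y a z → slope x y a z ≤ slope x y a c →
    x w ≤ x z

theorem Wd.same (hg : Gen F x y) {a b c b' c' w : V} (h : Wd F x y adj a b c w)
    (h' : Wd F x y adj a b' c' w) (hiff : w = c ↔ w = c') : b = b' := by
  by_contra hne
  have key : ∀ {b c b' c' : V}, Wd F x y adj a b c w → Wd F x y adj a b' c' w →
      (w = c ↔ w = c') → slope x y a b < slope x y a b' → False := by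
    intro b c b' c' h h' hiff hlt
    have h1 : slope x y a c ≤ slope x y a b' := h.hnext b' h'.hab hlt
    by_cases hwc : w = c
    · have hwc' := hiff.mp hwc
      subst hwc
      have := h'.hbc
      rw [← hwc'] at this
      linarith
    · have h2 : slope x y a w ≠ slope x y a c :=
        hg.2 a h.hab.1 w h.hw c h.hac.2.1 (by rintro rfl; exact lt_irrefl _ h.haw)
          (by rintro rfl; exact lt_irrefl _ h.hac.2.2.2) hwc
      have h3 := lt_of_le_of_ne h.hw2 h2
      have h4 := h'.hw1
      linarith
  have hb : slope x y a b ≠ slope x y a b' :=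
    hg.2 a h.hab.1 b h.hab.2.1 b' h'.hab.2.1 (by rintro rfl; exact lt_irrefl _ h.hab.2.2.2)
          (by rintro rfl; exact lt_irrefl _ h'.hab.2.2.2) hne
  rcases lt_or_gt_of_ne hb with hlt | hlt
  · exact key h h' hiff hlt
  · exact key h' h hiff.symm hlt

/-- height comparison via slopes -/
theorem above_iff {a b z : V} (h : x a < x z) :
    (y z - (y a + slope x y a b * (x z - x a))) =
      (slope x y a z - slope x y a b) * (x z - x a) := by
  have := slope_spec (y := y) h
  linear_combination this

theorem Wd.diff (hg : Gen F x y) (hsep : Sep F x y adj) {a b c a' b' c' w : V}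
    (h : Wd F x y adj a b c w) (h' : Wd F x y adj a' b' c' w) (hiff : w = c ↔ w = c')
    (hlt : x a < x a') : False := by
  have ha := h.hab.1
  have ha' := h'.hab.1
  have haw := h.haw
  have haw' := h'.haw
  have hxb : x w ≤ x b := h.hmin b h.hab.2.1 h.hab.2.2.2 le_rfl h.hbc.le
  have hxc : x w ≤ x c := h.hmin c h.hac.2.1 h.hac.2.2.2 h.hbc.le le_rfl
  have hxb' : x w ≤ x b' := h'.hmin b' h'.hab.2.1 h'.hab.2.2.2 le_rfl h'.hbc.le
  have hxc' : x w ≤ x c' := h'.hmin c' h'.hac.2.1 h'.hac.2.2.2 h'.hbc.le le_rfl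
  have p1 : 0 < x a' - x a := by linarith
  have p2 : 0 < x w - x a := by linarith
  have p3 : 0 < x w - x a' := by linarith
  have hout : slope x y a a' < slope x y a b ∨ slope x y a c < slope x y a a' := by
    by_contra hcon
    push Not at hcon
    have := h.hmin a' ha' hlt hcon.1 hcon.2
    linarith
  have w1 := above_iff (x := x) (y := y) (a := a) (b := b) (z := w) haw
  have w2 := above_iff (x := x) (y := y) (a := a) (b := c) (z := w) haw
  have w3 := above_iff (x := x) (y := y) (a := a') (b := b') (z := w) haw'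
  have w4 := above_iff (x := x) (y := y) (a := a') (b := c') (z := w) haw'
  have v1 := above_iff (x := x) (y := y) (a := a) (b := b) (z := a') hlt
  have v2 := above_iff (x := x) (y := y) (a := a) (b := c) (z := a') hlt
  have hhw1 := h.hw1
  have hhw2 := h.hw2
  have hhw1' := h'.hw1
  have hhw2' := h'.hw2
  by_cases hwc : w = c
  · have hwc' := hiff.mp hwc
    have q1 : slope x y a b < slope x y a w := by rw [hwc]; exact h.hbc
    have q2 : slope x y a' b' < slope x y a' w := by rw [hwc']; exact h'.hbc
    rcases hout with ho | ho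
    · -- edges (a, b) and (a', c')
      refine no_cross (xw := x w) hsep ha h.hab.2.1 ha' h'.hac.2.1 h.hab.2.2.1 h'.hac.2.2.1 hlt
        haw' hxb hxc' (Or.inr ⟨?_, ?_⟩)
      · rw [v1]; exact mul_neg_of_neg_of_pos (by linarith) p1
      · have t1 := mul_pos (show 0 < slope x y a w - slope x y a b by linarith) p2
        have t2 : (slope x y a' w - slope x y a' c') * (x w - x a') = 0 := by
          rw [hwc']; ring
        linarith
    · -- edges (a, c) and (a', b')
      refine no_cross (xw := x w) hsep ha h.hac.2.1 ha' h'.hab.2.1 h.hac.2.2.1 h'.hab.2.2.1 hlt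
        haw' hxc hxb' (Or.inl ⟨?_, ?_⟩)
      · rw [v2]; exact mul_pos (by linarith) p1
      · have t1 := mul_pos (show 0 < slope x y a' w - slope x y a' b' by linarith) p3
        have t2 : (slope x y a w - slope x y a c) * (x w - x a) = 0 := by
          rw [hwc]; ring
        linarith
  · have hwc' : w ≠ c' := fun h0 => hwc (hiff.mpr h0)
    have h2 : slope x y a w ≠ slope x y a c :=
      hg.2 a h.hab.1 w h.hw c h.hac.2.1 (by rintro rfl; exact lt_irrefl _ h.haw)
        (by rintro rfl; exact lt_irrefl _ h.hac.2.2.2) hwc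
    have h3 := lt_of_le_of_ne h.hw2 h2
    have h2' : slope x y a' w ≠ slope x y a' c' :=
      hg.2 a' h'.hab.1 w h'.hw c' h'.hac.2.1 (by rintro rfl; exact lt_irrefl _ h'.haw)
        (by rintro rfl; exact lt_irrefl _ h'.hac.2.2.2) hwc'
    have h3' := lt_of_le_of_ne h'.hw2 h2'
    rcases hout with ho | ho
    · -- edges (a, b) and (a', c')
      refine no_cross (xw := x w) hsep ha h.hab.2.1 ha' h'.hac.2.1 h.hab.2.2.1 h'.hac.2.2.1 hlt
        haw' hxb hxc' (Or.inr ⟨?_, ?_⟩)
      · rw [v1]; exact mul_neg_of_neg_of_pos (by linarith) p1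
      · have t1 := mul_nonneg (show 0 ≤ slope x y a w - slope x y a b by linarith) p2.le
        have t2 := mul_pos (show 0 < slope x y a' c' - slope x y a' w by linarith) p3
        linarith
    · -- edges (a, c) and (a', b')
      refine no_cross (xw := x w) hsep ha h.hac.2.1 ha' h'.hab.2.1 h.hac.2.2.1 h'.hab.2.2.1 hlt
        haw' hxc hxb' (Or.inl ⟨?_, ?_⟩)
      · rw [v2]; exact mul_pos (by linarith) p1
      · have t1 := mul_nonneg (show 0 ≤ slope x y a' w - slope x y a' b' by linarith) p3.le
        have t2 := mul_pos (show 0 < slope x y a c - slope x y a w by linarith) p2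
        linarith

open Classical in
theorem edges_le (hg : Gen F x y) (hsep : Sep F x y adj) :
    ((F ×ˢ F).filter (fun p => adj p.1 p.2 ∧ x p.1 < x p.2)).card ≤ 3 * F.card := by
  rcases isEmpty_or_nonempty V with hV | hV
  · have : F = ∅ := Finset.eq_empty_of_isEmpty F
    subst this
    simp
  set E := (F ×ˢ F).filter (fun p => adj p.1 p.2 ∧ x p.1 < x p.2) with hE
  have hmem : ∀ p, p ∈ E ↔ RE F x adj p.1 p.2 := by
    intro p
    simp only [hE, Finset.mem_filter, Finset.mem_product, RE]
    tauto
  let top : V × V → Prop := fun p => ∀ d, RE F x adj p.1 d → slope x y p.1 d ≤ slope x y p.1 p.2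
  have hsplit := Finset.card_filter_add_card_filter_not (s := E) top
  have h1 : (E.filter top).card ≤ F.card := by
    refine Finset.card_le_card_of_injOn Prod.fst ?_ ?_
    · intro p hp
      have hp' := (Finset.mem_filter.mp hp).1
      exact ((hmem p).mp hp').1
    · intro p hp q hq hpq
      have hp' := Finset.mem_filter.mp hp
      have hq' := Finset.mem_filter.mp hq
      have hp1 := (hmem p).mp hp'.1
      have hq1 := (hmem q).mp hq'.1
      have hp2 : ∀ d, RE F x adj p.1 d → slope x y p.1 d ≤ slope x y p.1 p.2 := hp'.2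
      have hq2 : ∀ d, RE F x adj q.1 d → slope x y q.1 d ≤ slope x y q.1 q.2 := hq'.2
      obtain ⟨a, b⟩ := p
      obtain ⟨a', b'⟩ := q
      simp only at hpq hp1 hq1 hp2 hq2
      subst hpq
      by_contra hne
      have hbb : b ≠ b' := fun h => hne (by rw [h])
      have := hg.2 a hp1.1 b hp1.2.1 b' hq1.2.1 (by rintro rfl; exact lt_irrefl _ hp1.2.2.2)
        (by rintro rfl; exact lt_irrefl _ hq1.2.2.2) hbb
      exact this (le_antisymm (hq2 b hp1) (hp2 b' hq1))
  have hex : ∀ p ∈ E.filter (fun p => ¬ top p), ∃ c w, Wd F x y adj p.1 p.2 c w := by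
    intro p hp
    obtain ⟨hp1, hp2⟩ := Finset.mem_filter.mp hp
    have hp1 := (hmem p).mp hp1
    have hp2 : ¬ ∀ d, RE F x adj p.1 d → slope x y p.1 d ≤ slope x y p.1 p.2 := hp2
    push Not at hp2
    obtain ⟨d, hd1, hd2⟩ := hp2
    obtain ⟨c, hc1, hc2⟩ := Finset.exists_min_image
      (F.filter (fun c => RE F x adj p.1 c ∧ slope x y p.1 p.2 < slope x y p.1 c))
      (fun c => slope x y p.1 c) ⟨d, by simp [hd1, hd2, hd1.2.1]⟩
    simp only [Finset.mem_filter] at hc1 hc2
    obtain ⟨w, hw1, hw2⟩ := Finset.exists_min_image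
      (F.filter (fun w => x p.1 < x w ∧ slope x y p.1 p.2 ≤ slope x y p.1 w ∧
        slope x y p.1 w ≤ slope x y p.1 c)) x
      ⟨p.2, by simp [hp1.2.1, hp1.2.2.2, hc1.2.2.le]⟩
    simp only [Finset.mem_filter] at hw1 hw2
    exact ⟨c, w, ⟨hp1, hc1.2.1, hc1.2.2, fun d hd hd' => hc2 d ⟨hd.2.1, hd, hd'⟩, hw1.1, hw1.2.1,
      hw1.2.2.1, hw1.2.2.2, fun z hz h1 h2 h3 => hw2 z ⟨hz, h1, h2, h3⟩⟩⟩
  choose! C W hCW using hex
  have h2 : (E.filter (fun p => ¬ top p)).card ≤ (F ×ˢ (Finset.univ : Finset Bool)).card := by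
    refine Finset.card_le_card_of_injOn (fun p => (W p, decide (W p = C p))) ?_ ?_
    · intro p hp
      simp only [Finset.coe_product, Finset.coe_univ, Set.mem_prod, Finset.mem_coe, Set.mem_univ,
        and_true]
      exact (hCW p hp).hw
    · intro p hp q hq hpq
      have hp' := hCW p hp
      have hq' := hCW q hq
      simp only [Prod.mk.injEq, decide_eq_decide] at hpq
      obtain ⟨e1, e2⟩ := hpq
      rw [← e1] at hq' e2
      obtain ⟨a, b⟩ := p
      obtain ⟨a', b'⟩ := q
      simp only at hp' hq' e2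
      rcases lt_trichotomy (x a) (x a') with hlt | heq | hlt
      · exact (hp'.diff hg hsep hq' e2 hlt).elim
      · have haa : a = a' := by
          by_contra hne
          exact hg.1 a hp'.hab.1 a' hq'.hab.1 hne heq
        subst haa
        rw [hp'.same hg hq' e2]
      · exact (hq'.diff hg hsep hp' e2.symm hlt).elim
  rw [Finset.card_product, Finset.card_univ, Fintype.card_bool] at h2
  omega

end Wedge

end Pool.Agent.H.MP_91129c_co
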